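import Pool.Agent.U735.FF.Base
import Pool.Agent.U735.CV.Kos

/-!
# Tensor powers of endomorphisms which act as zero outside degree zero
-/

set_option autoImplicit false
set_option linter.unusedSectionVars false
set_option linter.unusedSimpArgs false
set_option backward.isDefEq.respectTransparency false
set_option backward.defeqAttrib.useBackward true

open CategoryTheory Limits MonoidalCategory Pretriangulated Triangulated

namespace Pool.Agent.U735.TB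

open Pool.Agent.Y116.MT Pool.Agent.V1178.MT Pool.Agent.U735.IL Pool.Agent.U735.FF
  Pool.Agent.U735.TC

universe v u w

open Functor.LaxMonoidal

section

variable {C : Type u} [Category.{v} C] [Preadditive C] [HasZeroObject C] [HasShift C ℤ]
  [∀ n : ℤ, (shiftFunctor C n).Additive] [Pretriangulated C] [MonoidalCategory C]
  [SymmetricCategory C] [TensorTriangulated C]

lemma rShift_zero (X Y : C) : (rShift X Y 0).hom =
    X ◁ (shiftFunctorZero C ℤ).hom.app Y ≫ (shiftFunctorZero C ℤ).inv.app (X ⊗ Y) := by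
  change ((tensorLeft X).commShiftIso (0 : ℤ)).hom.app Y = _
  rw [Functor.commShiftIso_zero, Functor.CommShift.isoZero_hom_app]
  rfl

lemma lShift_zero (X Y : C) : (lShift X Y 0).hom =
    (shiftFunctorZero C ℤ).hom.app X ▷ Y ≫ (shiftFunctorZero C ℤ).inv.app (X ⊗ Y) := by
  simp only [lShift, Iso.trans_hom, Functor.mapIso_hom, rShift_zero, Category.assoc]
  rw [← BraidedCategory.braiding_naturality_left_assoc]
  have h1 : (shiftFunctorZero C ℤ).inv.app (Y ⊗ X) ≫ (β_ Y X).hom⟦(0 : ℤ)⟧' =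
      (β_ Y X).hom ≫ (shiftFunctorZero C ℤ).inv.app (X ⊗ Y) :=
    ((shiftFunctorZero C ℤ).inv.naturality _).symm
  rw [h1]
  congr 1
  exact SymmetricCategory.symmetry_assoc X Y _

lemma shiftTensorIso_zero_aux (X Y : C) : ∀ (j : ℤ) (hj : j = 0) (h : 0 + j = 0),
    (rShift (X⟦(0 : ℤ)⟧) Y j).hom ≫ (lShift X Y 0).hom⟦j⟧' ≫
      (shiftFunctorCompIsoId C 0 j h).hom.app (X ⊗ Y) =
    (shiftFunctorZero C ℤ).hom.app X ⊗ₘ (shiftFunctorZero' C j hj).hom.app Y := by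
  rintro j rfl h
  have h2 : (shiftFunctorZero' C (0 : ℤ) rfl).hom.app Y = (shiftFunctorZero C ℤ).hom.app Y := by
    simp [shiftFunctorZero']
  rw [rShift_zero, lShift_zero, h2, MonoidalCategory.tensorHom_def']
  simp only [Category.assoc]
  congr 1
  have h1 : ∀ {A B : C} (f : A ⟶ B), (shiftFunctorZero C ℤ).inv.app A ≫ f⟦(0 : ℤ)⟧' =
      f ≫ (shiftFunctorZero C ℤ).inv.app B := fun f =>
    ((shiftFunctorZero C ℤ).inv.naturality f).symm
  rw [shiftFunctorCompIsoId_zero_zero_hom_app, ← Functor.map_comp_assoc, ← Category.assoc, h1]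
  simp

lemma shiftTensorIso_zero (X Y : C) : (shiftTensorIso X Y 0).hom =
    (shiftFunctorZero C ℤ).hom.app X ⊗ₘ (shiftFunctorZero' C (-0 : ℤ) (by simp)).hom.app Y := by
  rw [← shiftTensorIso_zero_aux X Y (-0) (by simp) (by simp)]
  rfl

lemma lShift_natural_right (X : C) {Y Y' : C} (f : Y ⟶ Y') (n : ℤ) :
    (X⟦n⟧) ◁ f ≫ (lShift X Y' n).hom = (lShift X Y n).hom ≫ (X ◁ f)⟦n⟧' := by
  simp only [lShift, Iso.trans_hom, Functor.mapIso_hom, Category.assoc]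
  rw [BraidedCategory.braiding_naturality_right_assoc, reassoc_of% rShift_natural_left f X n,
    ← Functor.map_comp, ← Functor.map_comp, BraidedCategory.braiding_naturality_left]

lemma shiftTensorIso_natural_right (X : C) {Y Y' : C} (f : Y ⟶ Y') (i : ℤ) :
    (X⟦i⟧) ◁ (f⟦-i⟧') ≫ (shiftTensorIso X Y' i).hom = (shiftTensorIso X Y i).hom ≫ X ◁ f := by
  simp only [shiftTensorIso, Iso.trans_hom, Functor.mapIso_hom, Category.assoc]
  rw [reassoc_of% rShift_natural_right (X⟦i⟧) f (-i), ← Functor.map_comp_assoc,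
    lShift_natural_right, Functor.map_comp_assoc]
  congr 2
  exact (shiftFunctorCompIsoId C i (-i) (add_neg_cancel i)).hom.naturality (X ◁ f)

lemma shiftTensorIso_natural_both {X X' Y Y' : C} (a : X ⟶ X') (b : Y ⟶ Y') (i : ℤ) :
    (a⟦i⟧' ⊗ₘ b⟦-i⟧') ≫ (shiftTensorIso X' Y' i).hom = (shiftTensorIso X Y i).hom ≫ (a ⊗ₘ b) := by
  rw [MonoidalCategory.tensorHom_def, MonoidalCategory.tensorHom_def, Category.assoc, shiftTensorIso_natural_right,
    reassoc_of% shiftTensorIso_natural]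

variable {E : Type w} [Field E] (R : Realisation C E)

/-- The components of the Künneth map. -/
lemma kun_natural {X X' Y Y' : C} (a : X ⟶ X') (b : Y ⟶ Y') (i : ℤ) :
    (μ R.H (X⟦i⟧) (Y⟦-i⟧) ≫ R.H.map (shiftTensorIso X Y i).hom) ≫ R.H.map (a ⊗ₘ b) =
      (R.H.map (a⟦i⟧') ⊗ₘ R.H.map (b⟦-i⟧')) ≫ μ R.H (X'⟦i⟧) (Y'⟦-i⟧) ≫
        R.H.map (shiftTensorIso X' Y' i).hom := by
  rw [Category.assoc, ← Functor.map_comp, ← shiftTensorIso_natural_both, Functor.map_comp,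
    ← Category.assoc, ← Category.assoc, ← μ_natural]

lemma kun_zero (X Y : C) :
    μ R.H (X⟦(0 : ℤ)⟧) (Y⟦(-0 : ℤ)⟧) ≫ R.H.map (shiftTensorIso X Y 0).hom =
      (R.H.map ((shiftFunctorZero C ℤ).hom.app X) ⊗ₘ
        R.H.map ((shiftFunctorZero' C (-0 : ℤ) (by simp)).hom.app Y)) ≫ μ R.H X Y := by
  rw [shiftTensorIso_zero]
  exact (μ_natural R.H ((shiftFunctorZero C ℤ).hom.app X)
    ((shiftFunctorZero' C (-0 : ℤ) (by simp)).hom.app Y)).symm

/-- `H` vanishes on `a ⊗ b` if in all degrees it vanishes on `a` or on `b`. -/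
lemma map_tensor_zero {X X' Y Y' : C} (a : X ⟶ X') (b : Y ⟶ Y')
    (h : ∀ i : ℤ, R.H.map (a⟦i⟧') = 0 ∨ R.H.map (b⟦-i⟧') = 0) : R.H.map (a ⊗ₘ b) = 0 := by
  apply ModuleCat.hom_ext
  refine zero_of_toModule (E := E)
    (M := fun i : ℤ => (R.H.obj (X⟦i⟧) ⊗ R.H.obj (Y⟦-i⟧) : ModuleCat.{w} E))
    (fun i : ℤ => (μ R.H (X⟦i⟧) (Y⟦-i⟧) ≫ R.H.map (shiftTensorIso X Y i).hom).hom) _
    (fun i => ?_) (R.kunneth X Y).2
  have h2 := kun_natural R a b i
  have h3 : (R.H.map (a⟦i⟧') ⊗ₘ R.H.map (b⟦-i⟧')) = 0 := by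
    rcases h i with h4 | h4
    · rw [h4, MonoidalCategory.tensorHom_def]
      have h3 : (0 : R.H.obj (X⟦i⟧) ⟶ R.H.obj (X'⟦i⟧)) ▷ R.H.obj (Y⟦-i⟧) = 0 :=
        (tensorRight _).map_zero _ _
      rw [h3, zero_comp]
    · rw [h4, MonoidalCategory.tensorHom_def]
      have h3 : R.H.obj (X'⟦i⟧) ◁ (0 : R.H.obj (Y⟦-i⟧) ⟶ R.H.obj (Y'⟦-i⟧)) = 0 :=
        (tensorLeft _).map_zero _ _
      rw [h3, comp_zero]
  rw [h3, zero_comp] at h2
  exact congrArg ModuleCat.Hom.hom h2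

/-- If `H` vanishes on `a` outside degree zero, the values of `a ⊗ b` on `H` are products. -/
lemma map_tensor_range {X X' Y Y' : C} (a : X ⟶ X') (b : Y ⟶ Y')
    (h : ∀ i : ℤ, i ≠ 0 → R.H.map (b⟦i⟧') = 0) (y : R.H.obj (X ⊗ Y)) :
    ∃ w : (R.H.obj X ⊗ R.H.obj Y : ModuleCat.{w} E),
      R.H.map (a ⊗ₘ b) y = μ R.H X' Y' ((R.H.map a ⊗ₘ R.H.map b) w) := by
  obtain ⟨x, rfl⟩ := (R.kunneth X Y).2 y
  induction x using DirectSum.induction_on with
  | zero => exact ⟨0, by simp⟩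
  | add x y hx hy =>
    obtain ⟨w1, h1⟩ := hx
    obtain ⟨w2, h2⟩ := hy
    exact ⟨w1 + w2, by rw [map_add, map_add, map_add, map_add, h1, h2]⟩
  | of i x =>
    have h0 : kunnethMap R.H X Y (DirectSum.of (fun i : ℤ =>
        (R.H.obj (X⟦i⟧) ⊗ R.H.obj (Y⟦-i⟧) : ModuleCat.{w} E)) i x) =
        (μ R.H (X⟦i⟧) (Y⟦-i⟧) ≫ R.H.map (shiftTensorIso X Y i).hom) x := by
      simp only [kunnethMap]
      exact DirectSum.toModule_lof E (M := fun i : ℤ =>
        (R.H.obj (X⟦i⟧) ⊗ R.H.obj (Y⟦-i⟧) : ModuleCat.{w} E)) i x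
    have h1 := congrArg (fun f => f.hom x) (kun_natural R a b i)
    have h2 : R.H.map (a ⊗ₘ b) ((μ R.H (X⟦i⟧) (Y⟦-i⟧) ≫ R.H.map (shiftTensorIso X Y i).hom) x) =
      ((R.H.map (a⟦i⟧') ⊗ₘ R.H.map (b⟦-i⟧')) ≫ μ R.H (X'⟦i⟧) (Y'⟦-i⟧) ≫
        R.H.map (shiftTensorIso X' Y' i).hom) x := h1
    rw [h0, h2]
    by_cases hi : i = 0
    · subst hi
      have h3 := congrArg (fun f => f.hom x) (congrArg (fun f => f ≫ R.H.map (a ⊗ₘ b))
        (kun_zero R X Y))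
      have h4 : ((R.H.map (a⟦(0 : ℤ)⟧') ⊗ₘ R.H.map (b⟦(-0 : ℤ)⟧')) ≫
          μ R.H (X'⟦(0 : ℤ)⟧) (Y'⟦(-0 : ℤ)⟧) ≫ R.H.map (shiftTensorIso X' Y' 0).hom) =
          (R.H.map ((shiftFunctorZero C ℤ).hom.app X) ⊗ₘ
          R.H.map ((shiftFunctorZero' C (-0 : ℤ) (by simp)).hom.app Y)) ≫
          (R.H.map a ⊗ₘ R.H.map b) ≫ μ R.H X' Y' := by
        have h5 := kun_natural R a b 0
        rw [kun_zero R X Y] at h5
        rw [← h5, Category.assoc]
        congr 1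
        exact (μ_natural R.H a b).symm
      refine ⟨(R.H.map ((shiftFunctorZero C ℤ).hom.app X) ⊗ₘ
          R.H.map ((shiftFunctorZero' C (-0 : ℤ) (by simp)).hom.app Y)) x, ?_⟩
      rw [h4]
      rfl
    · refine ⟨0, ?_⟩
      have h3 : R.H.map (b⟦-i⟧') = 0 := h _ (by omega)
      have h4 : (R.H.map (a⟦i⟧') ⊗ₘ R.H.map (b⟦-i⟧')) = 0 := by
        rw [h3, MonoidalCategory.tensorHom_def]
        have h3 : R.H.obj (X'⟦i⟧) ◁ (0 : R.H.obj (Y⟦-i⟧) ⟶ R.H.obj (Y'⟦-i⟧)) = 0 :=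
          (tensorLeft _).map_zero _ _
        rw [h3, comp_zero]
      rw [h4, zero_comp, map_zero, map_zero]
      rfl

end

end Pool.Agent.U735.TB
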