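import Mathlib

/-!
# Generalized eigenspaces
-/

set_option autoImplicit false

namespace Pool.Agent.U735.TB

universe w

variable {E : Type*} [Field E] {V W : Type*} [AddCommGroup V] [Module E V]
  [FiniteDimensional E V] [AddCommGroup W] [Module E W] [FiniteDimensional E W]

/-- Elements of the generalized eigenspace in the image come from the generalized eigenspace. -/
lemma gen_exact (F : Module.End E V) (G : Module.End E W) (α : V →ₗ[E] W)
    (h : ∀ v, α (F v) = G (α v)) {w : W} (hw : w ∈ G.maxGenEigenspace 1) {v : V} (hv : α v = w) :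
    ∃ v' ∈ F.maxGenEigenspace 1, α v' = w := by
  obtain ⟨f, hf⟩ : ∃ f : Module.End E V, f = F - (1 : E) • 1 := ⟨_, rfl⟩
  obtain ⟨g, hg⟩ : ∃ g : Module.End E W, g = G - (1 : E) • 1 := ⟨_, rfl⟩
  have h1 : ∀ v, α (f v) = g (α v) := by
    intro v
    rw [hf, hg]
    simp [h]
  have h2 : ∀ (n : ℕ) (v : V), α ((f ^ n) v) = (g ^ n) (α v) := by
    intro n
    induction n with
    | zero => intro v; simp
    | succ n ih =>
      intro v
      rw [pow_succ, pow_succ, Module.End.mul_apply, Module.End.mul_apply, ih, h1]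
  rw [Module.End.mem_maxGenEigenspace] at hw
  obtain ⟨m, hm⟩ := hw
  rw [← hg] at hm
  obtain ⟨k, hk⟩ := Filter.eventually_atTop.1 (f.eventually_isCompl_ker_pow_range_pow.and
    g.eventually_isCompl_ker_pow_range_pow)
  obtain ⟨h3, h4⟩ := hk (max k m) (le_max_left _ _)
  have h5 : v ∈ LinearMap.ker (f ^ max k m) ⊔ LinearMap.range (f ^ max k m) := by
    rw [h3.sup_eq_top]
    exact Submodule.mem_top
  obtain ⟨a, ha, b, ⟨c, hc⟩, hab⟩ := Submodule.mem_sup.1 h5
  rw [LinearMap.mem_ker] at ha
  have h6 : (g ^ max k m) w = 0 := by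
    obtain ⟨j, hj⟩ : ∃ j, max k m = j + m := ⟨max k m - m, by omega⟩
    rw [hj, pow_add, Module.End.mul_apply, hm, map_zero]
  have h7 : α b = 0 := by
    have h8 : α b ∈ LinearMap.ker (g ^ max k m) := by
      rw [LinearMap.mem_ker]
      have h9 : α b = w - α a := by rw [← hv, ← hab, map_add]; abel
      rw [h9, map_sub, h6, ← h2, ha, map_zero, sub_zero]
    have h9 : α b ∈ LinearMap.range (g ^ max k m) := by
      refine ⟨α c, ?_⟩
      rw [← h2]
      exact congrArg α hc
    have h10 := h4.inf_eq_bot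
    have h11 : α b ∈ LinearMap.ker (g ^ max k m) ⊓ LinearMap.range (g ^ max k m) := ⟨h8, h9⟩
    rw [h10] at h11
    exact (Submodule.mem_bot E).1 h11
  refine ⟨a, ?_, ?_⟩
  · rw [Module.End.mem_maxGenEigenspace]
    exact ⟨max k m, by rw [← hf]; exact ha⟩
  · rw [← hv, ← hab, map_add, h7, add_zero]

omit [FiniteDimensional E V] [FiniteDimensional E W] in
lemma gen_map (F : Module.End E V) (G : Module.End E W) (α : V →ₗ[E] W)
    (h : ∀ v, α (F v) = G (α v)) {v : V} (hv : v ∈ F.maxGenEigenspace 1) :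
    α v ∈ G.maxGenEigenspace 1 := by
  obtain ⟨f, hf⟩ : ∃ f : Module.End E V, f = F - (1 : E) • 1 := ⟨_, rfl⟩
  obtain ⟨g, hg⟩ : ∃ g : Module.End E W, g = G - (1 : E) • 1 := ⟨_, rfl⟩
  have h1 : ∀ v, α (f v) = g (α v) := by
    intro v
    rw [hf, hg]
    simp [h]
  have h2 : ∀ (n : ℕ) (v : V), α ((f ^ n) v) = (g ^ n) (α v) := by
    intro n
    induction n with
    | zero => intro v; simp
    | succ n ih =>
      intro v
      rw [pow_succ, pow_succ, Module.End.mul_apply, Module.End.mul_apply, ih, h1]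
  rw [Module.End.mem_maxGenEigenspace] at hv ⊢
  obtain ⟨m, hm⟩ := hv
  exact ⟨m, by rw [← hg, ← h2, hf, hm, map_zero]⟩

omit [FiniteDimensional E V] in
/-- If `F - 1` is injective the generalized eigenspace is zero. -/
lemma gen_zero (F : Module.End E V) (h : ∀ v, F v = v → v = 0) {v : V}
    (hv : v ∈ F.maxGenEigenspace 1) : v = 0 := by
  rw [Module.End.mem_maxGenEigenspace] at hv
  obtain ⟨k, hk⟩ := hv
  induction k with
  | zero => simpa using hk
  | succ k ih =>
    apply ih
    apply h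
    rw [pow_succ', Module.End.mul_apply] at hk
    have h1 : (F - (1 : E) • 1) (((F - (1 : E) • 1) ^ k) v) =
      F (((F - (1 : E) • 1) ^ k) v) - ((F - (1 : E) • 1) ^ k) v := by
      simp
    rw [h1, sub_eq_zero] at hk
    exact hk

/-- Bases dual to each other. -/
lemma exists_dual {A B : Type*} [AddCommGroup A] [Module ℚ A] [AddCommGroup B] [Module ℚ B]
    (β : B →ₗ[ℚ] A →ₗ[ℚ] ℚ) {a : ℕ} (z : Fin a → A)
    (h : ∀ c : Fin a → ℚ, (∀ r : B, ∑ i, c i * β r (z i) = 0) → c = 0) :
    ∃ r : Fin a → B, ∀ i j, β (r j) (z i) = if i = j then 1 else 0 := by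
  classical
  let f : B →ₗ[ℚ] (Fin a → ℚ) := LinearMap.pi fun i => LinearMap.flip β (z i)
  have hf : LinearMap.range f = ⊤ := by
    by_contra hne
    obtain ⟨g, hg, hg'⟩ := Submodule.exists_le_ker_of_lt_top _ (lt_top_iff_ne_top.2 hne)
    apply hg
    have h1 : (fun i => g (Pi.single i 1)) = 0 := by
      apply h
      intro r
      have h2 : g (f r) = 0 := hg' ⟨r, rfl⟩
      rw [← h2]
      conv_rhs => rw [LinearMap.pi_apply_eq_sum_univ g (f r)]
      refine Finset.sum_congr rfl fun i _ => ?_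
      have h3 : (fun j => if i = j then (1 : ℚ) else 0) = Pi.single i 1 := by
        ext j
        rw [Pi.single_apply]
        simp only [eq_comm]
      rw [smul_eq_mul, mul_comm, h3]
      rfl
    apply LinearMap.pi_ext'
    intro i
    ext
    simpa using congrFun h1 i
  rw [LinearMap.range_eq_top] at hf
  choose r hr using fun j : Fin a => hf (Pi.single j 1)
  refine ⟨r, fun i j => ?_⟩
  have h1 := congrFun (hr j) i
  rw [Pi.single_apply] at h1
  exact h1

end Pool.Agent.U735.TB
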