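import Pool.Agent.U735.TB.Defs
import Pool.Agent.U735.TB.Lin
import Pool.Agent.U735.FF.Base

/-!
# The regulator on triangles
-/

set_option autoImplicit false
set_option linter.unusedSectionVars false
set_option linter.unusedSimpArgs false
set_option backward.isDefEq.respectTransparency false
set_option backward.defeqAttrib.useBackward true

open CategoryTheory Limits MonoidalCategory Pretriangulated Triangulated
open scoped TensorProduct Polynomial

namespace Pool.Agent.U735.TB

open Pool.Agent.Y116.MT Pool.Agent.V1178.MT Pool.Agent.U735.IL Pool.Agent.U735.FF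
  Pool.Agent.U735.TC

universe v u w

section

variable {C : Type u} [Category.{v} C] [Preadditive C] [HasZeroObject C] [HasShift C ℤ]
  [∀ n : ℤ, (shiftFunctor C n).Additive] [Pretriangulated C] [MonoidalCategory C]
  [SymmetricCategory C] [TensorTriangulated C] {E : Type w} [Field E] {φ : 𝟭 C ⟶ 𝟭 C}
  {R : Realisation C E}

/-- The class in `H(K)` of a morphism `𝟙 ⟶ K`, as a homomorphism. -/
noncomputable def clh (R : Realisation C E) (K : C) : (𝟙_ C ⟶ K) →+ R.H.obj K where
  toFun x := cl R K x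
  map_zero' := by simp [cl]
  map_add' x y := by
    simp only [cl]
    rw [R.H.map_add, Preadditive.comp_add]
    rfl

lemma cl_comp {K L : C} (x : 𝟙_ C ⟶ K) (f : K ⟶ L) : clh R L (x ≫ f) = R.H.map f (clh R K x) := by
  change (Functor.LaxMonoidal.ε R.H ≫ R.H.map (x ≫ f)).hom (1 : E) =
    R.H.map f ((Functor.LaxMonoidal.ε R.H ≫ R.H.map x).hom (1 : E))
  rw [Functor.map_comp]
  rfl

lemma cl_one_ne : clh R (𝟙_ C) (𝟙 _) ≠ 0 := by
  intro h
  have h1 : (Functor.LaxMonoidal.ε R.H).hom (1 : E) = 0 := by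
    have h2 : clh R (𝟙_ C) (𝟙 _) = (Functor.LaxMonoidal.ε R.H).hom (1 : E) := by
      change (Functor.LaxMonoidal.ε R.H ≫ R.H.map (𝟙 _)).hom (1 : E) = _
      rw [CategoryTheory.Functor.map_id, Category.comp_id]
    rw [← h2, h]
  have h3 : Function.Injective (Functor.LaxMonoidal.ε R.H).hom :=
    ((ModuleCat.mono_iff_injective _).1 inferInstance)
  have h4 : (1 : E) = 0 := h3 (h1.trans (map_zero _).symm)
  exact one_ne_zero h4

/-- A morphism from the unit is zero on `H` if its class is zero. -/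
lemma map_zero_of_cl {K : C} (x : 𝟙_ C ⟶ K) (h : clh R K x = 0) : R.H.map x = 0 := by
  rw [← cancel_epi (Functor.LaxMonoidal.ε R.H), comp_zero]
  apply ModuleCat.hom_ext
  apply LinearMap.ext
  intro c
  have h1 : (Functor.LaxMonoidal.ε R.H ≫ R.H.map x).hom (c • (1 : E)) = c • clh R K x :=
    LinearMap.map_smul _ _ _
  rw [smul_eq_mul, mul_one] at h1
  rw [h1, h, smul_zero]
  rfl

lemma frob_nat {K L : C} (f : K ⟶ L) (v : R.H.obj K) :
    frob φ R L (R.H.map f v) = R.H.map f (frob φ R K v) := by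
  have h1 : f ≫ φ.app L = φ.app K ≫ f := φ.naturality f
  have h2 := congrArg (fun x => (R.H.map x).hom v) h1
  simp only [Functor.map_comp] at h2
  exact h2

lemma frob_cl (h : φ.app (𝟙_ C) = 𝟙 _) {K : C} (x : 𝟙_ C ⟶ K) :
    frob φ R K (clh R K x) = clh R K x := by
  have h1 : x ≫ φ.app K = x := by
    have h2 : x ≫ φ.app K = φ.app _ ≫ x := φ.naturality x
    rw [h2, h, Category.id_comp]
  have h2 := cl_comp (R := R) x (φ.app K)
  rw [h1] at h2
  exact h2.symm

variable [Linear ℚ C] [CharZero E]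

/-- The regulator `E ⊗ Hom(𝟙, K) ⟶ H(K)`. -/
noncomputable def reg (R : Realisation C E) (K : C) : E ⊗[ℚ] (𝟙_ C ⟶ K) →+ R.H.obj K :=
  TensorProduct.liftAddHom
    (AddMonoidHom.mk' (fun c : E => (DistribSMul.toAddMonoidHom (R.H.obj K) c).comp (clh R K))
      (fun a b => by
        ext x
        exact add_smul a b (clh R K x)))
    (fun q c x => by
      have h1 : clh R K (q • x) = (q : E) • clh R K x := by
        have h2 := map_ratCast_smul (clh R K) ℚ E q x
        rwa [Rat.cast_id] at h2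
      change (q • c) • clh R K x = c • clh R K (q • x)
      rw [h1, smul_smul, Rat.smul_def, mul_comm])

lemma reg_tmul {K : C} (c : E) (x : 𝟙_ C ⟶ K) : reg R K (c ⊗ₜ x) = c • clh R K x := rfl

lemma reg_nat {K L : C} (f : K ⟶ L) (t : E ⊗[ℚ] (𝟙_ C ⟶ K)) :
    reg R L ((Linear.rightComp ℚ (𝟙_ C) f).lTensor E t) = R.H.map f (reg R K t) := by
  induction t using TensorProduct.induction_on with
  | zero => simp
  | add s t hs ht => rw [map_add, map_add, map_add, hs, ht, map_add]
  | tmul c x =>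
    rw [LinearMap.lTensor_tmul, reg_tmul, reg_tmul]
    change c • clh R L (x ≫ f) = _
    rw [cl_comp]
    exact (LinearMap.map_smul (R.H.map f).hom c (clh R K x)).symm

lemma frob_reg (h : φ.app (𝟙_ C) = 𝟙 _) {K : C} (t : E ⊗[ℚ] (𝟙_ C ⟶ K)) :
    frob φ R K (reg R K t) = reg R K t := by
  induction t using TensorProduct.induction_on with
  | zero => simp
  | add s t hs ht => rw [map_add, map_add, hs, ht]
  | tmul c x => rw [reg_tmul, map_smul, frob_cl h]

lemma eigen_of_fix {V : Type*} [AddCommGroup V] [Module E V] {F : Module.End E V} {v : V}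
    (h : F v = v) : v ∈ F.maxGenEigenspace 1 := by
  rw [Module.End.mem_maxGenEigenspace]
  exact ⟨1, by simp [h]⟩

/-- The exact sequences of morphisms from the unit, with coefficients. -/
lemma exact_hom {X Y Z : C} {f : X ⟶ Y} {g : Y ⟶ Z} {h : Z ⟶ X⟦(1 : ℤ)⟧}
    (hT : Triangle.mk f g h ∈ distTriang C) :
    Function.Exact ((Linear.rightComp ℚ (𝟙_ C) f).lTensor E)
      ((Linear.rightComp ℚ (𝟙_ C) g).lTensor E) := by
  apply Module.Flat.lTensor_exact
  intro y
  constructor
  · intro hy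
    obtain ⟨l, hl⟩ := ce2 hT y hy
    exact ⟨l, hl.symm⟩
  · rintro ⟨x, rfl⟩
    change (x ≫ f) ≫ g = 0
    rw [Category.assoc, comp12 hT, comp_zero]

lemma exact_hom' {X Y Z : C} {f : X ⟶ Y} {g : Y ⟶ Z} {h : Z ⟶ X⟦(1 : ℤ)⟧}
    (hT : Triangle.mk f g h ∈ distTriang C) :
    Function.Exact ((Linear.rightComp ℚ (𝟙_ C) g).lTensor E)
      ((Linear.rightComp ℚ (𝟙_ C) h).lTensor E) := by
  apply Module.Flat.lTensor_exact
  intro y
  constructor
  · intro hy
    obtain ⟨l, hl⟩ := ce3 hT y hy
    exact ⟨l, hl.symm⟩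
  · rintro ⟨x, rfl⟩
    change (x ≫ g) ≫ h = 0
    rw [Category.assoc, comp23 hT, comp_zero]

/-- The statement which is stable under extensions. -/
def Iso1 (φ : 𝟭 C ⟶ 𝟭 C) (R : Realisation C E) (K : C) : Prop :=
  Function.Injective (reg R K) ∧
    ∀ v ∈ (frob φ R K).maxGenEigenspace 1, v ∈ Set.range (reg R K)

lemma reg_injective_iff (K : C) : Function.Injective (reg R K) ↔
    ∀ {n : ℕ} (x : Fin n → (𝟙_ C ⟶ K)), LinearIndependent ℚ x →
      LinearIndependent E (fun i => cl R K (x i)) := by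
  classical
  constructor
  · intro h n x hx
    rw [Fintype.linearIndependent_iff]
    intro c hc j
    have h1 : ∑ i, c i ⊗ₜ[ℚ] x i = 0 := by
      apply h
      rw [map_sum, map_zero]
      exact hc
    obtain ⟨g, hg⟩ := (Fintype.linearCombination ℚ x).exists_leftInverse_of_injective
      (LinearMap.ker_eq_bot.2 (linearIndependent_iff_injective_fintypeLinearCombination.1 hx))
    have h2 : ∀ i, g (x i) = Pi.single i 1 := by
      intro i
      have h3 := LinearMap.congr_fun hg (Pi.single i 1)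
      simpa using h3
    have h3 := congrArg (fun t => TensorProduct.rid ℚ E (((LinearMap.proj j).comp g).lTensor E t))
      h1
    simp only [map_sum, LinearMap.lTensor_tmul, LinearMap.comp_apply, h2, LinearMap.proj_apply,
      TensorProduct.rid_tmul, map_zero, Pi.single_apply, ite_smul, one_smul, zero_smul] at h3
    simpa using h3
  · intro h
    rw [injective_iff_map_eq_zero]
    intro t ht
    let B := Module.Free.chooseBasis ℚ (𝟙_ C ⟶ K)
    obtain ⟨c, hc⟩ : ∃ c, c = (B.baseChange E).repr t := ⟨_, rfl⟩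
    have h1 : t = ∑ i ∈ c.support, c i ⊗ₜ[ℚ] B i := by
      have h2 := (B.baseChange E).linearCombination_repr t
      rw [← hc, Finsupp.linearCombination_apply, Finsupp.sum] at h2
      rw [← h2]
      refine Finset.sum_congr rfl fun i _ => ?_
      rw [Module.Basis.baseChange_apply, TensorProduct.smul_tmul', smul_eq_mul, mul_one]
    have h2 : ∑ i ∈ c.support, c i • cl R K (B i) = 0 := by
      rw [h1, map_sum] at ht
      exact ht
    let e := c.support.equivFin
    have h3 : LinearIndependent ℚ (fun k => B (e.symm k).1) :=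
      B.linearIndependent.comp (fun k => (e.symm k).1)
        (Subtype.val_injective.comp e.symm.injective)
    have h4 := Fintype.linearIndependent_iff.1 (h _ h3) (fun k => c (e.symm k).1) (by
      rw [← h2, ← Finset.sum_coe_sort c.support (fun i => c i • cl R K (B i))]
      exact Equiv.sum_comp e.symm (fun i : c.support => c i.1 • cl R K (B i.1)))
    rw [h1]
    refine Finset.sum_eq_zero fun i hi => ?_
    have h5 := h4 (e ⟨i, hi⟩)
    rw [Equiv.symm_apply_apply] at h5
    rw [h5, TensorProduct.zero_tmul]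

lemma mem_range_reg_iff {K : C} (v : R.H.obj K) :
    v ∈ Set.range (reg R K) ↔ v ∈ Submodule.span E (Set.range (cl R K)) := by
  constructor
  · rintro ⟨t, rfl⟩
    induction t using TensorProduct.induction_on with
    | zero => rw [map_zero]; exact Submodule.zero_mem _
    | add s t hs ht => rw [map_add]; exact Submodule.add_mem _ hs ht
    | tmul c x => exact Submodule.smul_mem _ _ (Submodule.subset_span ⟨x, rfl⟩)
  · intro h
    induction h using Submodule.span_induction with
    | mem x hx =>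
      obtain ⟨x, rfl⟩ := hx
      exact ⟨1 ⊗ₜ x, by rw [reg_tmul, one_smul]; rfl⟩
    | zero => exact ⟨0, map_zero _⟩
    | add x y _ _ hx hy =>
      obtain ⟨s, rfl⟩ := hx
      obtain ⟨t, rfl⟩ := hy
      exact ⟨s + t, map_add _ _ _⟩
    | smul c x _ hx =>
      obtain ⟨s, rfl⟩ := hx
      clear * -
      refine ⟨c • s, ?_⟩
      induction s using TensorProduct.induction_on with
      | zero => rw [smul_zero, map_zero, smul_zero]
      | add s t hs ht => rw [smul_add, map_add, map_add, smul_add, hs, ht]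
      | tmul d x => rw [TensorProduct.smul_tmul', reg_tmul, reg_tmul, smul_smul, smul_eq_mul]

/-- The statement for the regulator. -/
lemma TateBeilinson.reg_injective {K : C} (h : TateBeilinson φ R K) :
    Function.Injective (reg R K) :=
  (reg_injective_iff K).2 h.injective

lemma TateBeilinson.reg_range {K : C} (h : TateBeilinson φ R K) :
    Set.range (reg R K) = ((frob φ R K).eigenspace 1 : Set (R.H.obj K)) := by
  ext v
  rw [mem_range_reg_iff, h.span]
  rfl

lemma TateBeilinson.of_reg {K : C} (h1 : Function.Injective (reg R K))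
    (h2 : Set.range (reg R K) = ((frob φ R K).eigenspace 1 : Set (R.H.obj K)))
    (h3 : (frob φ R K).maxGenEigenspace 1 = (frob φ R K).eigenspace 1) :
    TateBeilinson φ R K := by
  refine ⟨(reg_injective_iff K).1 h1, ?_, h3⟩
  ext v
  rw [← mem_range_reg_iff, h2]
  rfl

lemma Iso1.tb (h0 : φ.app (𝟙_ C) = 𝟙 _) {K : C} (h : Iso1 φ R K) : TateBeilinson φ R K := by
  have h1 : ∀ v ∈ (frob φ R K).maxGenEigenspace 1, frob φ R K v = v := by
    intro v hv
    obtain ⟨t, rfl⟩ := h.2 v hv
    exact frob_reg h0 t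
  refine TateBeilinson.of_reg h.1 ?_ ?_
  · ext v
    constructor
    · rintro ⟨t, rfl⟩
      exact Module.End.mem_eigenspace_iff.2 (by rw [frob_reg h0, one_smul])
    · intro hv
      have h2 := Module.End.mem_eigenspace_iff.1 hv
      rw [one_smul] at h2
      exact h.2 v (eigen_of_fix h2)
  · ext v
    constructor
    · intro hv
      exact Module.End.mem_eigenspace_iff.2 (by rw [h1 v hv, one_smul])
    · intro hv
      have h2 := Module.End.mem_eigenspace_iff.1 hv
      rw [one_smul] at h2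
      exact eigen_of_fix h2

lemma Iso1.iso {K L : C} (h : Iso1 φ R K) (e : K ≅ L) : Iso1 φ R L := by
  have h1 : ∀ t, R.H.map e.inv (reg R L t) =
      reg R K ((Linear.rightComp ℚ (𝟙_ C) e.inv).lTensor E t) := fun t => (reg_nat e.inv t).symm
  have h2 : ∀ t : E ⊗[ℚ] (𝟙_ C ⟶ L), (Linear.rightComp ℚ (𝟙_ C) e.hom).lTensor E
      ((Linear.rightComp ℚ (𝟙_ C) e.inv).lTensor E t) = t := by
    intro t
    rw [← LinearMap.comp_apply, ← LinearMap.lTensor_comp]
    have h3 : (Linear.rightComp ℚ (𝟙_ C) e.hom) ∘ₗ (Linear.rightComp ℚ (𝟙_ C) e.inv) =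
        LinearMap.id := by
      ext x
      change (x ≫ e.inv) ≫ e.hom = x
      rw [Category.assoc, Iso.inv_hom_id, Category.comp_id]
    rw [h3, LinearMap.lTensor_id, LinearMap.id_apply]
  have h4 : ∀ v, R.H.map e.hom (R.H.map e.inv v) = v := by
    intro v
    have h5 : R.H.map e.inv ≫ R.H.map e.hom = 𝟙 _ := by
      rw [← Functor.map_comp, Iso.inv_hom_id, CategoryTheory.Functor.map_id]
    have h6 := congrArg (fun x => x.hom v) h5
    exact h6
  constructor
  · intro s t hst
    have h5 := congrArg (R.H.map e.inv) hst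
    rw [h1, h1] at h5
    have h6 := h.1 h5
    rw [← h2 s, ← h2 t, h6]
  · intro v hv
    obtain ⟨t, ht⟩ := h.2 (R.H.map e.inv v)
      (gen_map _ _ (R.H.map e.inv).hom (fun v => (frob_nat (φ := φ) e.inv v).symm) hv)
    refine ⟨(Linear.rightComp ℚ (𝟙_ C) e.hom).lTensor E t, ?_⟩
    rw [reg_nat, ht, h4]

/-- The five lemma. -/
lemma Iso1.ext {W X Y Z V : C} {w : W ⟶ X} {f : X ⟶ Y} {g : Y ⟶ Z} {h : Z ⟶ V}
    (h0 : φ.app (𝟙_ C) = 𝟙 _)
    (e1 : Function.Exact ((Linear.rightComp ℚ (𝟙_ C) w).lTensor E)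
      ((Linear.rightComp ℚ (𝟙_ C) f).lTensor E))
    (e2 : Function.Exact ((Linear.rightComp ℚ (𝟙_ C) f).lTensor E)
      ((Linear.rightComp ℚ (𝟙_ C) g).lTensor E))
    (e3 : Function.Exact ((Linear.rightComp ℚ (𝟙_ C) g).lTensor E)
      ((Linear.rightComp ℚ (𝟙_ C) h).lTensor E))
    (r1 : ∀ v, R.H.map f v = 0 → ∃ u, R.H.map w u = v)
    (r2 : ∀ v, R.H.map g v = 0 → ∃ u, R.H.map f u = v)
    (r3 : ∀ v, R.H.map h (R.H.map g v) = 0)
    (hW : Iso1 φ R W) (hX : Iso1 φ R X) (hZ : Iso1 φ R Z) (hV : Iso1 φ R V) : Iso1 φ R Y := by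
  constructor
  · rw [injective_iff_map_eq_zero]
    intro t ht
    have h1 : (Linear.rightComp ℚ (𝟙_ C) g).lTensor E t = 0 := by
      apply hZ.1
      rw [reg_nat, ht, map_zero, map_zero]
    obtain ⟨s, rfl⟩ := (e2 t).1 h1
    rw [reg_nat] at ht
    obtain ⟨u, hu⟩ := r1 _ ht
    obtain ⟨u', hu', hu''⟩ := gen_exact (frob φ R W) (frob φ R X) (R.H.map w).hom
      (fun v => (frob_nat (φ := φ) w v).symm) (eigen_of_fix (frob_reg h0 s)) hu
    obtain ⟨t', rfl⟩ := hW.2 u' hu'
    have h2 : s = (Linear.rightComp ℚ (𝟙_ C) w).lTensor E t' := by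
      apply hX.1
      rw [reg_nat]
      exact hu''.symm
    rw [h2]
    exact (e1 _).2 ⟨t', rfl⟩
  · intro v hv
    obtain ⟨t, ht⟩ := hZ.2 (R.H.map g v)
      (gen_map _ _ (R.H.map g).hom (fun v => (frob_nat (φ := φ) g v).symm) hv)
    have h1 : (Linear.rightComp ℚ (𝟙_ C) h).lTensor E t = 0 := by
      apply hV.1
      rw [reg_nat, ht, map_zero]
      exact r3 v
    obtain ⟨t', rfl⟩ := (e3 t).1 h1
    rw [reg_nat] at ht
    have h2 : R.H.map g (v - reg R Y t') = 0 := by
      rw [map_sub, ht, sub_self]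
    obtain ⟨u, hu⟩ := r2 _ h2
    obtain ⟨u', hu', hu''⟩ := gen_exact (frob φ R X) (frob φ R Y) (R.H.map f).hom
      (fun v => (frob_nat (φ := φ) f v).symm)
      (Submodule.sub_mem _ hv (eigen_of_fix (frob_reg h0 t'))) hu
    obtain ⟨s, rfl⟩ := hX.2 u' hu'
    refine ⟨t' + (Linear.rightComp ℚ (𝟙_ C) f).lTensor E s, ?_⟩
    rw [map_add, reg_nat]
    have h3 : R.H.map f (reg R X s) = v - reg R Y t' := hu''
    rw [h3]
    abel

end

end Pool.Agent.U735.TB
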