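import Pool.Agent.U735.TB.Base

/-!
# The case of Chow motives, from the strong form of Tate's conjecture and the conservativity
-/

set_option autoImplicit false
set_option linter.unusedSectionVars false
set_option linter.unusedSimpArgs false
set_option backward.isDefEq.respectTransparency false
set_option backward.defeqAttrib.useBackward true

open CategoryTheory Limits MonoidalCategory Pretriangulated Triangulated
open scoped TensorProduct Polynomial

namespace Pool.Agent.U735.TB

open Pool.Agent.Y116.MT Pool.Agent.V1178.MT Pool.Agent.U735.IL Pool.Agent.U735.FF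
  Pool.Agent.U735.TC

universe v u w

lemma shift_smul {C : Type u} [Category.{v} C] [Preadditive C] [Linear ℚ C] [HasShift C ℤ]
    [∀ n : ℤ, (shiftFunctor C n).Additive] {X Y : C} (c : ℚ) (f : X ⟶ Y) (n : ℤ) :
    (c • f)⟦n⟧' = c • f⟦n⟧' :=
  map_rat_smul ((shiftFunctor C n).mapAddHom (X := X) (Y := Y)) c f

section

variable {C : Type u} [Category.{v} C] [Preadditive C] [HasZeroObject C] [HasShift C ℤ]
  [∀ n : ℤ, (shiftFunctor C n).Additive] [Pretriangulated C] [MonoidalCategory C]
  [SymmetricCategory C] [TensorTriangulated C] [RightRigidCategory C] [Linear ℚ C]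
  {E : Type w} [Field E] [CharZero E] (φ : 𝟭 C ⟶ 𝟭 C) (R : Realisation C E)

/-- The action of the polynomials in the Frobenius on the realisation. -/
noncomputable def psi (K : C) : ℚ[X] →+* Module.End E (R.H.obj K) where
  toFun p := (R.H.map (pol φ p K)).hom
  map_one' := by
    rw [pol_one, CategoryTheory.Functor.map_id]
    rfl
  map_mul' p q := by
    rw [mul_comm, pol_mul, Functor.map_comp]
    rfl
  map_zero' := by
    rw [pol_zero, Functor.map_zero]
    rfl
  map_add' p q := by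
    rw [pol_add, Functor.map_add]
    rfl

lemma psi_apply {K : C} (p : ℚ[X]) (v : R.H.obj K) : psi φ R K p v = R.H.map (pol φ p K) v := rfl

lemma psi_X (K : C) : psi φ R K Polynomial.X = frob φ R K := by
  change (R.H.map (pol φ Polynomial.X K)).hom = _
  rw [pol_X]
  rfl

lemma psi_C (K : C) (c : ℚ) : psi φ R K (Polynomial.C c) = (c : E) • 1 := by
  have h1 : (psi φ R K).comp Polynomial.C =
      (algebraMap E (Module.End E (R.H.obj K))).comp (Rat.castHom E) := RingHom.ext_rat _ _
  have h2 := congrArg (fun f : ℚ →+* Module.End E (R.H.obj K) => f c) h1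
  simp only [RingHom.comp_apply] at h2
  rw [h2, Algebra.algebraMap_eq_smul_one]
  rfl

lemma psi_X_sub (K : C) : psi φ R K (Polynomial.X - 1) = frob φ R K - (1 : E) • 1 := by
  rw [map_sub, psi_X, map_one, one_smul]

variable {φ R}

/-- If `p(φ)` acts as zero and `p(1) ≠ 0` then `1` is not an eigenvalue. -/
lemma fix_zero {K : C} {p : ℚ[X]} (hp : p.eval 1 ≠ 0) (h : R.H.map (pol φ p K) = 0)
    (v : R.H.obj K) (hv : frob φ R K v = v) : v = 0 := by
  have h1 : Polynomial.X - Polynomial.C (1 : ℚ) ∣ p - Polynomial.C (p.eval 1) :=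
    Polynomial.X_sub_C_dvd_sub_C_eval
  obtain ⟨s, hs⟩ := h1
  rw [Polynomial.C_1, mul_comm] at hs
  have h2 : psi φ R K p = 0 := by
    change (R.H.map (pol φ p K)).hom = 0
    rw [h]
    rfl
  have h3 := congrArg (psi φ R K) hs
  rw [map_sub, h2, psi_C, map_mul, psi_X_sub, zero_sub] at h3
  have h4 := LinearMap.congr_fun h3 v
  have h5 : (frob φ R K - (1 : E) • 1) v = 0 := by simp [hv]
  rw [Module.End.mul_apply, h5, map_zero] at h4
  have h6 : ((p.eval 1 : ℚ) : E) • v = 0 := by simpa using h4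
  have h7 : ((p.eval 1 : ℚ) : E) ≠ 0 := by exact_mod_cast hp
  exact (smul_eq_zero_iff_right h7).1 h6

/-- The generalized eigenspace in terms of the polynomials. -/
lemma mem_gen_of {K : C} {m : ℕ} {v : R.H.obj K}
    (h : psi φ R K ((Polynomial.X - 1) ^ m) v = 0) : v ∈ (frob φ R K).maxGenEigenspace 1 := by
  rw [Module.End.mem_maxGenEigenspace]
  refine ⟨m, ?_⟩
  rw [map_pow, psi_X_sub] at h
  exact h

end

section

variable {C : Type u} [Category.{v} C] [Preadditive C] [HasZeroObject C] [HasShift C ℤ]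
  [∀ n : ℤ, (shiftFunctor C n).Additive] [Pretriangulated C] [MonoidalCategory C]
  [SymmetricCategory C] [TensorTriangulated C] [RightRigidCategory C] [Linear ℚ C]
  {E : Type w} [Field E] [CharZero E] {φ : 𝟭 C ⟶ 𝟭 C} {R : Realisation C E}
  {Chow : ObjectProperty C}

lemma FiniteField.iso (hC : FiniteField Chow φ R) {P Q : C} (h : Chow P) (e : P ≅ Q) : Chow Q :=
  hC.summand Q P e.inv e.hom (by simp) h

lemma unit_comp_pol (hC : FiniteField Chow φ R) (q : ℚ[X]) {Y : C} (x : 𝟙_ C ⟶ Y) :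
    x ≫ pol φ q Y = q.eval 1 • x := by
  rw [← pol_nat, pol_of_id φ q hC.frobenius_unit, Linear.smul_comp, Category.id_comp]

lemma isIso_of_kill (hc : ConservativeOn R Chow) {P : C} (hP : Chow P) (b : P ⟶ P)
    (hb : ∀ i : ℤ, R.H.map (b⟦i⟧') = 0) (c : ℚ) : IsIso (𝟙 P - c • b) := by
  apply hc P P hP hP
  intro i
  have h4 : (𝟙 P - c • b)⟦i⟧' = 𝟙 _ - (c • 𝟙 _) ≫ b⟦i⟧' := by
    rw [Functor.map_sub, CategoryTheory.Functor.map_id, shift_smul, Linear.smul_comp,
      Category.id_comp]
  have h1 : R.H.map ((𝟙 P - c • b)⟦i⟧') = 𝟙 _ := by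
    rw [h4, Functor.map_sub, CategoryTheory.Functor.map_id, Functor.map_comp, hb, comp_zero,
      sub_zero]
  rw [h1]
  infer_instance

lemma kill_comp {P : C} {n : ℤ} {x : 𝟙_ C ⟶ P⟦n⟧} {b : P ⟶ P} {c : ℚ} (hc : c ≠ 0)
    (h : x ≫ b⟦n⟧' = c • x) : x ≫ (𝟙 P - c⁻¹ • b)⟦n⟧' = 0 := by
  rw [Functor.map_sub, CategoryTheory.Functor.map_id, Preadditive.comp_sub, Category.comp_id,
    shift_smul, Linear.comp_smul, h, smul_smul, inv_mul_cancel₀ hc, one_smul, sub_self]

/-- The morphisms from the unit to the shifts of a Chow motive. -/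
lemma hom_of_strong (hC : FiniteField Chow φ R) (hc : ConservativeOn R Chow) {P : C}
    (hP : Chow P) {a : ℕ} (z : Fin a → (𝟙_ C ⟶ P)) (r : Fin a → (P ⟶ 𝟙_ C))
    (hzr : ∀ i j, z i ≫ r j = if i = j then 𝟙 (𝟙_ C) else 0)
    (ha : Module.finrank E ((frob φ R P).maxGenEigenspace 1) = a) :
    LinearIndependent E (fun i => clh R P (z i)) ∧
    (∀ v ∈ (frob φ R P).maxGenEigenspace 1, v ∈ Submodule.span E (Set.range fun i => clh R P (z i))) ∧
    (∀ x : 𝟙_ C ⟶ P, x = ∑ i, (x ≫ r i) ≫ z i) ∧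
    ∀ (n : ℤ) (x : 𝟙_ C ⟶ P⟦n⟧), x = ∑ i, (x ≫ (r i)⟦n⟧') ≫ (z i)⟦n⟧' := by
  classical
  -- the classes are independent
  have hli : LinearIndependent E (fun i => clh R P (z i)) := by
    rw [Fintype.linearIndependent_iff]
    intro c hc j
    have h1 := congrArg (R.H.map (r j)) hc
    rw [map_sum, map_zero] at h1
    have h2 : ∀ i, R.H.map (r j) (c i • clh R P (z i)) =
        c i • (if i = j then clh R (𝟙_ C) (𝟙 _) else 0) := by
      intro i
      have h3 : R.H.map (r j) (c i • clh R P (z i)) = c i • R.H.map (r j) (clh R P (z i)) :=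
        LinearMap.map_smul _ _ _
      rw [h3, ← cl_comp, hzr]
      split_ifs
      · rfl
      · rw [map_zero]
    simp only [h2, smul_ite, smul_zero, Finset.sum_ite_eq', Finset.mem_univ, if_true] at h1
    exact (smul_eq_zero_iff_left cl_one_ne).1 h1
  have hmem : ∀ i, clh R P (z i) ∈ (frob φ R P).maxGenEigenspace 1 := fun i =>
    eigen_of_fix (frob_cl hC.frobenius_unit _)
  have hspan : Submodule.span E (Set.range fun i => clh R P (z i)) =
      (frob φ R P).maxGenEigenspace 1 := by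
    apply Submodule.eq_of_le_of_finrank_eq
    · rw [Submodule.span_le]
      rintro _ ⟨i, rfl⟩
      exact hmem i
    · rw [finrank_span_eq_card hli, Fintype.card_fin, ha]
  -- the projection
  obtain ⟨e, he⟩ : ∃ e : P ⟶ P, e = ∑ i, r i ≫ z i := ⟨_, rfl⟩
  have hze : ∀ i, z i ≫ e = z i := by
    intro i
    rw [he, Preadditive.comp_sum]
    rw [Finset.sum_eq_single i]
    · rw [← Category.assoc, hzr, if_pos rfl, Category.id_comp]
    · intro j _ hj
      rw [← Category.assoc, hzr, if_neg (Ne.symm hj), zero_comp]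
    · intro h
      exact absurd (Finset.mem_univ i) h
  have hee : e ≫ e = e := by
    have h1 : e ≫ e = (∑ i, r i ≫ z i) ≫ e := by rw [← he]
    rw [h1, Preadditive.sum_comp]
    conv_rhs => rw [he]
    exact Finset.sum_congr rfl fun i _ => by rw [Category.assoc, hze]
  have heV : ∀ v ∈ (frob φ R P).maxGenEigenspace 1, R.H.map e v = v := by
    intro v hv
    rw [← hspan] at hv
    induction hv using Submodule.span_induction with
    | mem x hx =>
      obtain ⟨i, rfl⟩ := hx
      rw [← cl_comp, hze]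
    | zero => rw [map_zero]
    | add x y _ _ hx hy => rw [map_add, hx, hy]
    | smul c x _ hx =>
      have h3 : R.H.map e (c • x) = c • R.H.map e x := LinearMap.map_smul _ _ _
      rw [h3, hx]
  -- the polynomial
  obtain ⟨p, hp0, hp1, hp⟩ := hC.weil P hP
  obtain ⟨N, hN⟩ := R.bounded P
  obtain ⟨s, hs⟩ := Polynomial.exists_eq_pow_rootMultiplicity_mul_and_not_dvd (p 0) hp0 1
  obtain ⟨m, hm⟩ : ∃ m, m = Polynomial.rootMultiplicity 1 (p 0) := ⟨_, rfl⟩
  obtain ⟨hs1, hs2⟩ := hs
  rw [← hm, Polynomial.C_1] at hs1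
  rw [Polynomial.dvd_iff_isRoot] at hs2
  have hs3 : s.eval 1 ≠ 0 := hs2
  obtain ⟨g, hg⟩ : ∃ g, g = ∏ i ∈ (Finset.Icc (-N : ℤ) N).erase 0, p i := ⟨_, rfl⟩
  have hg1 : g.eval 1 ≠ 0 := by
    rw [hg, Polynomial.eval_prod, Finset.prod_ne_zero_iff]
    intro i hi
    exact hp1 i (Finset.ne_of_mem_erase hi)
  obtain ⟨q, hq⟩ : ∃ q, q = s * g := ⟨_, rfl⟩
  have hq1 : q.eval 1 ≠ 0 := by
    rw [hq, Polynomial.eval_mul]
    exact mul_ne_zero hs3 hg1
  -- its action
  have hact : ∀ i : ℤ, R.H.map (((𝟙 P - e) ≫ pol φ q P)⟦i⟧') = 0 := by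
    intro i
    by_cases hi : N < i.natAbs
    · exact (hN i hi).eq_of_src _ _
    by_cases hi0 : i = 0
    · subst hi0
      have h1 : R.H.map ((𝟙 P - e) ≫ pol φ q P) = 0 := by
        apply ModuleCat.hom_ext
        apply LinearMap.ext
        intro v
        obtain ⟨w', hw'⟩ : ∃ w' : R.H.obj P, w' = R.H.map (𝟙 P - e) v := ⟨_, rfl⟩
        have h2 : R.H.map e w' = 0 := by
          have h3 : (𝟙 P - e) ≫ e = 0 := by
            rw [Preadditive.sub_comp, Category.id_comp, hee, sub_self]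
          have h4 := congrArg (fun x => (R.H.map x).hom v) h3
          simp only [Functor.map_comp, Functor.map_zero] at h4
          rw [hw']
          exact h4
        have h5 : psi φ R P s w' ∈ (frob φ R P).maxGenEigenspace 1 := by
          apply mem_gen_of (m := m)
          rw [← Module.End.mul_apply, ← map_mul, ← hs1]
          have h6 := hp 0
          have h7 : R.H.map (pol φ (p 0) P) = 0 := by
            have h8 : (pol φ (p 0) P)⟦(0 : ℤ)⟧' = (shiftFunctorZero C ℤ).hom.app P ≫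
                pol φ (p 0) P ≫ (shiftFunctorZero C ℤ).inv.app P := shiftZero' (A := ℤ) (f := _)
            rw [h8, Functor.map_comp, Functor.map_comp] at h6
            rw [← cancel_epi (R.H.map ((shiftFunctorZero C ℤ).hom.app P)),
              ← cancel_mono (R.H.map ((shiftFunctorZero C ℤ).inv.app P)), Category.assoc, h6]
            simp
          rw [psi_apply, h7]
          rfl
        have h6 : psi φ R P s w' = 0 := by
          rw [← heV _ h5, psi_apply]
          have h7 : pol φ s P ≫ e = e ≫ pol φ s P := pol_nat φ s e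
          have h8 := congrArg (fun x => (R.H.map x).hom w') h7
          simp only [Functor.map_comp] at h8
          have h9 : R.H.map e (R.H.map (pol φ s P) w') = R.H.map (pol φ s P) (R.H.map e w') := h8
          rw [h9, h2, map_zero]
        have h7 : (R.H.map ((𝟙 P - e) ≫ pol φ q P)).hom v = psi φ R P q w' := by
          rw [Functor.map_comp, hw']
          rfl
        rw [h7, hq, mul_comm, map_mul, Module.End.mul_apply, h6, map_zero]
        rfl
      have h8 : ((𝟙 P - e) ≫ pol φ q P)⟦(0 : ℤ)⟧' = (shiftFunctorZero C ℤ).hom.app P ≫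
          ((𝟙 P - e) ≫ pol φ q P) ≫ (shiftFunctorZero C ℤ).inv.app P := shiftZero' (A := ℤ) (f := _)
      rw [h8, Functor.map_comp, Functor.map_comp, h1, zero_comp, comp_zero]
    · have h1 : i ∈ (Finset.Icc (-N : ℤ) N).erase 0 := by
        rw [Finset.mem_erase, Finset.mem_Icc]
        omega
      obtain ⟨g', hg'⟩ : ∃ g', g = p i * g' := by
        rw [hg]
        exact Finset.dvd_prod_of_mem p h1
      have h2 : pol φ q P = pol φ (p i) P ≫ pol φ (s * g') P := by
        rw [← pol_mul, hq, hg', mul_left_comm]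
      rw [h2, Functor.map_comp, Functor.map_comp, Functor.map_comp, Functor.map_comp, hp,
        zero_comp, comp_zero]
  -- the automorphism
  obtain ⟨k, hk⟩ : ∃ k : P ⟶ P, k = 𝟙 P - (q.eval 1)⁻¹ • ((𝟙 P - e) ≫ pol φ q P) := ⟨_, rfl⟩
  have hiso : IsIso k := by
    rw [hk]
    exact isIso_of_kill hc hP _ hact _
  have hmain : ∀ (n : ℤ) (x : 𝟙_ C ⟶ P⟦n⟧), x = x ≫ e⟦n⟧' := by
    intro n x
    obtain ⟨y, hy⟩ : ∃ y : 𝟙_ C ⟶ P⟦n⟧, y = x ≫ (𝟙 P - e)⟦n⟧' := ⟨_, rfl⟩
    have h0 : (𝟙 P - e) ≫ (𝟙 P - e) = 𝟙 P - e := by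
      rw [Preadditive.sub_comp, Category.id_comp, Preadditive.comp_sub, Category.comp_id, hee,
        sub_self, sub_zero]
    have h1 : y ≫ (𝟙 P - e)⟦n⟧' = y := by
      rw [hy, Category.assoc, ← Functor.map_comp, h0]
    have h2 : y ≫ (pol φ q P)⟦n⟧' = q.eval 1 • y := by
      rw [← pol_shift φ q n (hC.frobenius_shift P n), unit_comp_pol hC]
    have h3 : y ≫ k⟦n⟧' = 0 := by
      rw [hk]
      apply kill_comp hq1
      rw [Functor.map_comp, ← Category.assoc, h1, h2]
    have h4 : y = 0 := by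
      rw [← cancel_mono (k⟦n⟧'), h3, zero_comp]
    rw [hy, Functor.map_sub, CategoryTheory.Functor.map_id, Preadditive.comp_sub,
      Category.comp_id, sub_eq_zero] at h4
    exact h4
  have hsum : ∀ (n : ℤ) (x : 𝟙_ C ⟶ P⟦n⟧), x ≫ e⟦n⟧' = ∑ i, (x ≫ (r i)⟦n⟧') ≫ (z i)⟦n⟧' := by
    intro n x
    rw [he, Functor.map_sum, Preadditive.comp_sum]
    exact Finset.sum_congr rfl fun i _ => by rw [Functor.map_comp, Category.assoc]
  refine ⟨hli, fun v hv => by rw [hspan]; exact hv, fun x => ?_, fun n x => ?_⟩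
  · have h1 := hmain 0 (x ≫ (shiftFunctorZero C ℤ).inv.app P)
    have h2 : e⟦(0 : ℤ)⟧' = (shiftFunctorZero C ℤ).hom.app P ≫ e ≫
        (shiftFunctorZero C ℤ).inv.app P := shiftZero' (A := ℤ) (f := _)
    rw [h2] at h1
    have h3 : x = x ≫ e := by
      rw [← cancel_mono ((shiftFunctorZero C ℤ).inv.app P)]
      simpa using h1
    conv_lhs => rw [h3, he, Preadditive.comp_sum]
    exact Finset.sum_congr rfl fun i _ => by rw [Category.assoc]
  · rw [← hsum]
    exact hmain n x

end

end Pool.Agent.U735.TB
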