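import Pool.Agent.U735.FF.Defs

/-!
# The conjectures of Tate, Beilinson and Jannsen over a finite field, for constructible motives
-/

set_option autoImplicit false

open CategoryTheory Limits MonoidalCategory Pretriangulated Triangulated
open scoped TensorProduct

namespace Pool.Agent.U735.TB

open Pool.Agent.Y116.MT Pool.Agent.V1178.MT Pool.Agent.U735.IL Pool.Agent.U735.FF

universe v u w

section

variable {C : Type u} [Category.{v} C] [Preadditive C] [HasZeroObject C] [HasShift C ℤ]
  [∀ n : ℤ, (shiftFunctor C n).Additive] [Pretriangulated C] [MonoidalCategory C]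
  [SymmetricCategory C] [TensorTriangulated C] {E : Type w} [Field E]

/-- The class in `H(K)` of a morphism `𝟙 ⟶ K`. -/
noncomputable def cl (R : Realisation C E) (K : C) (x : 𝟙_ C ⟶ K) : R.H.obj K :=
  (Functor.LaxMonoidal.ε R.H ≫ R.H.map x).hom (1 : E)

/-- The action of the Frobenius endomorphism on `H(K)`. -/
noncomputable def frob (φ : 𝟭 C ⟶ 𝟭 C) (R : Realisation C E) (K : C) :
    Module.End E (R.H.obj K) :=
  (R.H.map (φ.app K)).hom

variable [Linear ℚ C]

/-- The generalized conjecture of Tate and Beilinson (Jannsen) for the object `K`: the regulator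
`E ⊗ Hom(𝟙, K) ⟶ H(K)` is injective (the classes of morphisms which are linearly independent over
`ℚ` are linearly independent over `E`), its image is the space of the Frobenius invariants of
`H(K)`, and the eigenvalue `1` of the Frobenius on `H(K)` is semisimple. For the motive with compact
support `K = M^c(X)(-j)[-i]` of a scheme `X` this is TB(X) for the indices `i`, `j`. -/
structure TateBeilinson (φ : 𝟭 C ⟶ 𝟭 C) (R : Realisation C E) (K : C) : Prop where
  injective {n : ℕ} (x : Fin n → (𝟙_ C ⟶ K)) :
    LinearIndependent ℚ x → LinearIndependent E (fun i => cl R K (x i))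
  span : Submodule.span E (Set.range (cl R K)) = (frob φ R K).eigenspace 1
  semisimple : (frob φ R K).maxGenEigenspace 1 = (frob φ R K).eigenspace 1

end

section

variable {C : Type u} [Category.{v} C] [Preadditive C] [HasZeroObject C] [HasShift C ℤ]
  [∀ n : ℤ, (shiftFunctor C n).Additive] [Pretriangulated C] [MonoidalCategory C]
  [SymmetricCategory C] [TensorTriangulated C] {E : Type w} [Field E]

/-- Tate's conjecture: for `P` in the class the Frobenius invariants of `H(P)` are spanned by the
classes of the morphisms `𝟙 ⟶ P`. -/
def Tate (φ : 𝟭 C ⟶ 𝟭 C) (R : Realisation C E) (Chow : ObjectProperty C) : Prop :=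
  ∀ P : C, Chow P →
    Submodule.span E (Set.range (cl R P)) = (frob φ R P).eigenspace 1

/-- Tate's conjecture in the strong form: for `P` in the class there are classes `z i : 𝟙 ⟶ P` and
`r i : P ⟶ 𝟙` with `z i ≫ r j = δ_ij`, and their number is the multiplicity of the eigenvalue `1` of
the Frobenius on `H(P)`. In other words, the rank of the group of cycles modulo numerical equivalence
is the multiplicity of the eigenvalue `1` (the order of the pole of the zeta function). -/
def StrongTate (φ : 𝟭 C ⟶ 𝟭 C) (R : Realisation C E) (Chow : ObjectProperty C) : Prop :=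
  ∀ P : C, Chow P → ∃ (a : ℕ) (z : Fin a → (𝟙_ C ⟶ P)) (r : Fin a → (P ⟶ 𝟙_ C)),
    (∀ i j, z i ≫ r j = if i = j then 𝟙 (𝟙_ C) else 0) ∧
    Module.finrank E ((frob φ R P).maxGenEigenspace 1) = a

/-- The realisation is conservative on the class: a morphism between objects of the class which
induces isomorphisms on all `H^i` is an isomorphism. -/
def ConservativeOn (R : Realisation C E) (Chow : ObjectProperty C) : Prop :=
  ∀ (P Q : C), Chow P → Chow Q → ∀ f : P ⟶ Q, (∀ i : ℤ, IsIso (R.H.map (f⟦i⟧'))) → IsIso f

variable [RightRigidCategory C] [Linear ℚ C]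

/-- The known properties of the full subcategory `Chow` of Chow motives (the direct summands of
finite sums of the `M(X)(m)[2m]`, `X` smooth and projective) of the category of constructible
motives over a finite field, where `φ` is the Frobenius endomorphism and `R` is an `l`-adic
realisation:

* it contains the unit and is closed under direct summands, tensor products and duals;
* `Hom(P, Q[m]) = 0` for Chow motives `P`, `Q` and `m > 0`; also `Hom(𝟙, 𝟙[m]) = 0` for `m < 0`;
* every constructible motive is an iterated extension of shifts of Chow motives;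
* the Frobenius endomorphism is a natural endomorphism of all objects, compatible with the shifts,
  and it is the identity of the unit;
* the Weil conjectures: for a Chow motive `P` there are non zero polynomials `p i` with rational
  coefficients (the characteristic polynomials of the Frobenius endomorphism on the `H^i(P)`), with
  `p i 1 ≠ 0` for `i ≠ 0`, such that `p i (φ)` acts as zero on `H^i(P)`. -/
structure FiniteField (Chow : ObjectProperty C) (φ : 𝟭 C ⟶ 𝟭 C) (R : Realisation C E) : Prop
    extends ChowClosed Chow where
  negative : NoPositiveExt Chow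
  unit_negative (n : ℤ) : n < 0 → ∀ f : 𝟙_ C ⟶ (𝟙_ C)⟦n⟧, f = 0
  generate : Generates Chow
  frobenius_unit : φ.app (𝟙_ C) = 𝟙 (𝟙_ C)
  frobenius_shift (X : C) (n : ℤ) : φ.app (X⟦n⟧) = (φ.app X)⟦n⟧'
  weil (P : C) : Chow P → ∃ p : ℤ → Polynomial ℚ, p 0 ≠ 0 ∧ (∀ i : ℤ, i ≠ 0 → (p i).eval 1 ≠ 0) ∧
    ∀ i : ℤ, R.H.map ((pol φ (p i) P)⟦i⟧') = 0

end

end Pool.Agent.U735.TB
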