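import Pool.Agent.U735.TB.Num

/-!
# The theorem
-/

set_option autoImplicit false
set_option linter.unusedSectionVars false
set_option linter.unusedSimpArgs false
set_option backward.isDefEq.respectTransparency false
set_option backward.defeqAttrib.useBackward true

open CategoryTheory Limits MonoidalCategory Pretriangulated Triangulated
open scoped Polynomial

namespace Pool.Agent.U735.TB

open Pool.Agent.Y116.MT Pool.Agent.V1178.MT Pool.Agent.U735.IL Pool.Agent.U735.FF
  Pool.Agent.U735.TC Pool.Agent.U735.CV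

universe v u w

open Functor.LaxMonoidal

/-- If `ker (F - 1)` and the image of `F - 1` intersect in zero the eigenvalue `1` is
semisimple. -/
lemma semisimple_of {E : Type*} [Field E] [CharZero E] {V : Type*} [AddCommGroup V] [Module E V]
    (F : Module.End E V) (h : ∀ v, F (F v - v) = F v - v → F v = v) :
    F.maxGenEigenspace 1 = F.eigenspace 1 := by
  apply le_antisymm
  · intro v hv
    rw [Module.End.mem_maxGenEigenspace] at hv
    obtain ⟨k, hk⟩ := hv
    have h1 : ∀ w, (F - (1 : E) • 1) w = F w - w := fun w => by simp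
    have h2 : ∀ (k : ℕ) (w : V), ((F - (1 : E) • 1) ^ (k + 1)) w = 0 → F w = w := by
      intro k
      induction k with
      | zero =>
        intro w hw
        rw [zero_add, pow_one, h1, sub_eq_zero] at hw
        exact hw
      | succ k ih =>
        intro w hw
        apply h
        rw [← h1 w]
        apply ih
        rw [pow_succ] at hw
        exact hw
    rw [Module.End.mem_eigenspace_iff, one_smul]
    cases k with
    | zero =>
      have h3 : v = 0 := by simpa using hk
      rw [h3, map_zero]
    | succ k => exact h2 k v hk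
  · intro v hv
    have h1 := Module.End.mem_eigenspace_iff.1 hv
    rw [one_smul] at h1
    exact eigen_of_fix h1

section

variable {C : Type u} [Category.{v} C] [Preadditive C] [HasZeroObject C] [HasShift C ℤ]
  [∀ n : ℤ, (shiftFunctor C n).Additive] [Pretriangulated C] [MonoidalCategory C]
  [SymmetricCategory C] [TensorTriangulated C] [MonoidalPreadditive C] [RightRigidCategory C]
  [Linear ℚ C] {E : Type w} [Field E] [CharZero E] {φ : 𝟭 C ⟶ 𝟭 C} {R : Realisation C E}
  {Chow : ObjectProperty C} (hQ : ∀ e : 𝟙_ C ⟶ 𝟙_ C, ∃ q : ℚ, e = q • 𝟙 (𝟙_ C))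

include hQ in
/-- Dual families of classes, if homological and numerical equivalence coincide. -/
lemma dual_of_num {P : C} (hnum : ∀ z : 𝟙_ C ⟶ P, clh R P z ≠ 0 → ∃ r : P ⟶ 𝟙_ C, z ≫ r ≠ 0) :
    ∃ (a : ℕ) (z : Fin a → (𝟙_ C ⟶ P)) (r : Fin a → (P ⟶ 𝟙_ C)),
      (∀ i j, z i ≫ r j = if i = j then 𝟙 (𝟙_ C) else 0) ∧
      LinearIndependent E (fun i => clh R P (z i)) ∧
      Submodule.span E (Set.range fun i => clh R P (z i)) =
        Submodule.span E (Set.range (clh R P)) := by
  classical
  obtain ⟨b, hb1, hb2, hb3⟩ := exists_linearIndependent E (Set.range (clh R P))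
  have hfin : Finite b := hb3.finite
  have := Fintype.ofFinite b
  obtain ⟨a, ha⟩ : ∃ a, a = Fintype.card b := ⟨_, rfl⟩
  have e : Fin a ≃ b := (Fintype.equivFinOfCardEq ha.symm).symm
  choose z hz using fun i : Fin a => hb1 (e i).2
  have h1 : (fun i => clh R P (z i)) = (Subtype.val : b → R.H.obj P) ∘ e := funext hz
  have hli : LinearIndependent E (fun i => clh R P (z i)) := by
    rw [h1]
    exact hb3.comp _ e.injective
  have hne : 𝟙 (𝟙_ C) ≠ 0 := fun h1 => not_isZero_unit R ((IsZero.iff_id_eq_zero _).2 h1)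
  have hinj : Function.Injective (fun q : ℚ => q • 𝟙 (𝟙_ C)) := by
    intro p q hpq
    have h1 : (p - q) • 𝟙 (𝟙_ C) = 0 := by
      rw [sub_smul, sub_eq_zero]
      exact hpq
    by_contra hne'
    exact hne ((smul_eq_zero_iff_right (sub_ne_zero.2 hne')).1 h1)
  have hadd : ∀ e f : 𝟙_ C ⟶ 𝟙_ C, num hQ (e + f) = num hQ e + num hQ f := by
    intro e f
    apply hinj
    change num hQ (e + f) • 𝟙 (𝟙_ C) = (num hQ e + num hQ f) • 𝟙 (𝟙_ C)
    rw [add_smul, ← num_spec, ← num_spec, ← num_spec]
  let β : (P ⟶ 𝟙_ C) →ₗ[ℚ] (𝟙_ C ⟶ P) →ₗ[ℚ] ℚ :=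
    AddMonoidHom.toRatLinearMap
      { toFun := fun r => AddMonoidHom.toRatLinearMap
          { toFun := fun x => num hQ (x ≫ r)
            map_zero' := by
              apply hinj
              change num hQ (0 ≫ r) • 𝟙 (𝟙_ C) = (0 : ℚ) • 𝟙 (𝟙_ C)
              rw [← num_spec, zero_smul, zero_comp]
            map_add' := fun x y => by rw [Preadditive.add_comp, hadd] }
        map_zero' := by
          ext x
          apply hinj
          change num hQ (x ≫ 0) • 𝟙 (𝟙_ C) = (0 : ℚ) • 𝟙 (𝟙_ C)
          rw [← num_spec, zero_smul, comp_zero]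
        map_add' := fun r s => by
          ext x
          change num hQ (x ≫ (r + s)) = num hQ (x ≫ r) + num hQ (x ≫ s)
          rw [Preadditive.comp_add, hadd] }
  have hβ : ∀ r x, β r x = num hQ (x ≫ r) := fun _ _ => rfl
  obtain ⟨r, hr⟩ := exists_dual β z (fun c hc => by
    obtain ⟨x, hx⟩ : ∃ x, x = ∑ i, c i • z i := ⟨_, rfl⟩
    have h1 : clh R P x = 0 := by
      by_contra hne'
      obtain ⟨r, hr⟩ := hnum x hne'
      have h2 := hc r
      have h3 : β r x = 0 := by
        rw [hx, map_sum, ← h2]
        exact Finset.sum_congr rfl fun i _ => by rw [map_smul, smul_eq_mul]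
      rw [hβ] at h3
      apply hr
      rw [num_spec hQ (x ≫ r), h3, zero_smul]
    have h2 : ∑ i, (c i : E) • clh R P (z i) = 0 := by
      have h3 : clh R P x = ∑ i, (c i : E) • clh R P (z i) := by
        rw [hx, map_sum]
        refine Finset.sum_congr rfl fun i _ => ?_
        have h4 := map_ratCast_smul (clh R P) ℚ E (c i) (z i)
        rwa [Rat.cast_id] at h4
      rw [← h3, h1]
    have h3 := Fintype.linearIndependent_iff.1 hli _ h2
    funext i
    exact_mod_cast h3 i)
  refine ⟨a, z, r, fun i j => ?_, hli, ?_⟩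
  · have h1 := hr i j
    rw [hβ] at h1
    rw [num_spec hQ (z i ≫ r j), h1]
    split_ifs <;> simp
  · rw [← hb2, h1, Set.range_comp, e.surjective.range_eq, Set.image_univ, Subtype.range_coe]

include hQ in
/-- The strong form of Tate's conjecture from Tate's conjecture and the conservativity. -/
theorem strong_of_tate (hC : FiniteField Chow φ R) (hc : Conservative R)
    (ht : Tate φ R Chow) : StrongTate φ R Chow := by
  classical
  intro P hP
  obtain ⟨a, z, r, hzr, hli, hspan⟩ := dual_of_num hQ (fun z hz => hom_num hC hc hP z hz)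
  refine ⟨a, z, r, hzr, ?_⟩
  change Submodule.span E (Set.range fun i => clh R P (z i)) =
    Submodule.span E (Set.range (cl R P)) at hspan
  have hss : (frob φ R P).maxGenEigenspace 1 = (frob φ R P).eigenspace 1 := by
    apply semisimple_of
    intro v hv
    obtain ⟨u, hu⟩ : ∃ u, u = frob φ R P v - v := ⟨_, rfl⟩
    rw [← hu] at hv
    have h1 : u ∈ (frob φ R P).eigenspace 1 :=
      Module.End.mem_eigenspace_iff.2 (by rw [hv, one_smul])
    rw [← ht P hP, ← hspan] at h1
    obtain ⟨c, hc'⟩ := (Submodule.mem_span_range_iff_exists_fun E).1 h1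
    have h2 : ∀ j, R.H.map (r j) u = 0 := by
      intro j
      have h3 : R.H.map (r j) (frob φ R P v) = R.H.map (r j) v := by
        rw [← frob_nat]
        have h4 : frob φ R (𝟙_ C) = 1 := by
          change (R.H.map (φ.app (𝟙_ C))).hom = 1
          rw [hC.frobenius_unit]
          exact congrArg ModuleCat.Hom.hom (R.H.map_id (𝟙_ C))
        rw [h4]
        rfl
      rw [hu, map_sub, h3, sub_self]
    have h3 : ∀ j, c j = 0 := by
      intro j
      have h4 := h2 j
      rw [← hc', map_sum] at h4
      have h5 : ∀ i, R.H.map (r j) (c i • clh R P (z i)) =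
          c i • (if i = j then clh R (𝟙_ C) (𝟙 _) else 0) := by
        intro i
        have h3 : R.H.map (r j) (c i • clh R P (z i)) = c i • R.H.map (r j) (clh R P (z i)) :=
          LinearMap.map_smul _ _ _
        rw [h3, ← cl_comp, hzr]
        split_ifs
        · rfl
        · rw [map_zero]
      simp only [h5, smul_ite, smul_zero, Finset.sum_ite_eq', Finset.mem_univ, if_true] at h4
      exact (smul_eq_zero_iff_left cl_one_ne).1 h4
    have h4 : u = 0 := by
      rw [← hc']
      exact Finset.sum_eq_zero fun i _ => by rw [h3, zero_smul]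
    rw [hu, sub_eq_zero] at h4
    exact h4
  rw [hss, ← ht P hP, ← hspan, finrank_span_eq_card hli, Fintype.card_fin]

lemma TateBeilinson.iso1 {K : C} (h : TateBeilinson φ R K) : Iso1 φ R K := by
  refine ⟨h.reg_injective, fun v hv => ?_⟩
  rw [h.reg_range, ← h.semisimple]
  exact hv

/-- The generalized conjecture for Chow motives implies the conjecture for all motives. -/
theorem tb_of_chow (hC : FiniteField Chow φ R)
    (h : ∀ P : C, Chow P → ∀ n : ℤ, TateBeilinson φ R (P⟦n⟧)) (K : C) : TateBeilinson φ R K :=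
  Iso1.tb hC.frobenius_unit ((iso1_all hC (fun P hP n => (h P hP n).iso1) K 0).iso
    ((shiftFunctorZero C ℤ).app K))

include hQ in
/-- The theorem. -/
theorem main (hC : FiniteField Chow φ R) :
    List.TFAE [∀ K : C, TateBeilinson φ R K,
      ∀ P : C, Chow P → ∀ n : ℤ, TateBeilinson φ R (P⟦n⟧),
      Tate φ R Chow ∧ Conservative R,
      StrongTate φ R Chow ∧ ConservativeOn R Chow] := by
  tfae_have 1 → 2 := fun h P _ n => h _
  tfae_have 2 → 1 := tb_of_chow hC
  tfae_have 1 → 3 := fun h => ⟨fun P _ => (h P).span, conservative_of_tb h⟩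
  tfae_have 3 → 4 := fun h => ⟨strong_of_tate hQ hC h.2 h.1,
    fun _ _ _ _ _ hf => isIso_of_all h.2 hf⟩
  tfae_have 4 → 1 := fun h => (main_strong hQ hC).2 h
  tfae_finish

end

end Pool.Agent.U735.TB
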