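import Pool.Agent.U735.TB.Chow

/-!
# The conjecture TB, the strong form of Tate's conjecture, and conservativity
-/

set_option autoImplicit false
set_option linter.unusedSectionVars false
set_option linter.unusedSimpArgs false
set_option backward.isDefEq.respectTransparency false
set_option backward.defeqAttrib.useBackward true

open CategoryTheory Limits MonoidalCategory Pretriangulated Triangulated
open scoped TensorProduct Polynomial

namespace Pool.Agent.U735.TB

open Pool.Agent.Y116.MT Pool.Agent.V1178.MT Pool.Agent.U735.IL Pool.Agent.U735.FF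
  Pool.Agent.U735.TC

universe v u w

/-- The scalar extension is faithful. -/
lemma one_tmul {E : Type*} [Field E] [CharZero E] {M : Type*} [AddCommGroup M] [Module ℚ M]
    {x : M} (h : (1 : E) ⊗ₜ[ℚ] x = 0) : x = 0 := by
  obtain ⟨g, hg⟩ := (Algebra.linearMap ℚ E).exists_leftInverse_of_injective
    (LinearMap.ker_eq_bot.2 (algebraMap ℚ E).injective)
  have h1 : g 1 = 1 := by
    have h2 := LinearMap.congr_fun hg 1
    simpa using h2
  have h2 := congrArg (fun t => TensorProduct.lid ℚ M (g.rTensor M t)) h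
  simpa [h1] using h2

section

variable {C : Type u} [Category.{v} C] [Preadditive C] [HasZeroObject C] [HasShift C ℤ]
  [∀ n : ℤ, (shiftFunctor C n).Additive] [Pretriangulated C] [MonoidalCategory C]
  [SymmetricCategory C] [TensorTriangulated C] [Linear ℚ C]
  {E : Type w} [Field E] [CharZero E] {φ : 𝟭 C ⟶ 𝟭 C} {R : Realisation C E}
  {Chow : ObjectProperty C}

lemma H_exact {X Y Z : C} {f : X ⟶ Y} {g : Y ⟶ Z} {h : Z ⟶ X⟦(1 : ℤ)⟧}
    (hT : Triangle.mk f g h ∈ distTriang C) (v : R.H.obj Y) (hv : R.H.map g v = 0) :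
    ∃ u, R.H.map f u = v :=
  (ShortComplex.moduleCat_exact_iff _).1 (R.H.map_distinguished_exact _ hT) v hv

/-- The case of a triangle. -/
lemma Iso1.tri (h0 : φ.app (𝟙_ C) = 𝟙 _) {X Y Z : C} {f : X ⟶ Y} {g : Y ⟶ Z}
    {h : Z ⟶ X⟦(1 : ℤ)⟧} (hT : Triangle.mk f g h ∈ distTriang C)
    (hW : Iso1 φ R (Z⟦(-1 : ℤ)⟧)) (hX : Iso1 φ R X) (hZ : Iso1 φ R Z)
    (hX1 : Iso1 φ R (X⟦(1 : ℤ)⟧)) : Iso1 φ R Y := by
  have hT' := inv_rot_of_distTriang _ hT
  refine Iso1.ext (w := (Triangle.mk f g h).invRotate.mor₁) (f := f) (g := g) (h := h) h0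
    (exact_hom hT') (exact_hom hT) (exact_hom' hT) (H_exact hT') (H_exact hT) ?_ hW hX hZ hX1
  intro v
  have h1 : g ≫ h = 0 := comp23 hT
  have h2 := congrArg (fun x => (R.H.map x).hom v) h1
  simp only [Functor.map_comp, Functor.map_zero] at h2
  exact h2

variable [RightRigidCategory C]

/-- The class of the objects with the property for all shifts contains all objects. -/
lemma iso1_all (hC : FiniteField Chow φ R)
    (h : ∀ P : C, Chow P → ∀ n : ℤ, Iso1 φ R (P⟦n⟧)) (K : C) (n : ℤ) : Iso1 φ R (K⟦n⟧) := by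
  refine hC.generate (fun K => ∀ n : ℤ, Iso1 φ R (K⟦n⟧)) ?_ ?_ K n
  · intro P hP m n
    exact (h P hP (m + n)).iso ((shiftFunctorAdd C m n).app P)
  · intro X Y Z f g h' hT hX hZ n
    have hT' := Triangle.shift_distinguished _ hT n
    exact Iso1.tri hC.frobenius_unit hT'
      ((hZ (n + -1)).iso ((shiftFunctorAdd C n (-1)).app Z)) (hX n) (hZ n)
      ((hX (n + 1)).iso ((shiftFunctorAdd C n 1).app X))

variable (hQ : ∀ e : 𝟙_ C ⟶ 𝟙_ C, ∃ q : ℚ, e = q • 𝟙 (𝟙_ C))

include hQ in
/-- The case of Chow motives. -/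
lemma iso1_chow (hC : FiniteField Chow φ R) (hc : ConservativeOn R Chow)
    (hs : StrongTate φ R Chow) {P : C} (hP : Chow P) (n : ℤ) : Iso1 φ R (P⟦n⟧) := by
  obtain ⟨a, z, r, hzr, ha⟩ := hs P hP
  obtain ⟨hli, hspan, h0, hn⟩ := hom_of_strong hC hc hP z r hzr ha
  by_cases hn0 : n = 0
  · subst hn0
    refine Iso1.iso (K := P) ?_ ((shiftFunctorZero C ℤ).app P).symm
    have hall : ∀ t : E ⊗[ℚ] (𝟙_ C ⟶ P), ∃ c : Fin a → E, t = ∑ i, c i ⊗ₜ z i := by
      intro t
      induction t using TensorProduct.induction_on with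
      | zero => exact ⟨0, by simp⟩
      | add s t hs ht =>
        obtain ⟨c, hc⟩ := hs
        obtain ⟨d, hd⟩ := ht
        refine ⟨c + d, ?_⟩
        rw [hc, hd, ← Finset.sum_add_distrib]
        exact Finset.sum_congr rfl fun i _ => (TensorProduct.add_tmul _ _ _).symm
      | tmul c x =>
        choose q hq using fun i => hQ (x ≫ r i)
        refine ⟨fun i => q i • c, ?_⟩
        conv_lhs => rw [h0 x]
        rw [TensorProduct.tmul_sum]
        refine Finset.sum_congr rfl fun i _ => ?_
        rw [hq i, Linear.smul_comp, Category.id_comp, TensorProduct.tmul_smul,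
          TensorProduct.smul_tmul']
    have hreg : ∀ c : Fin a → E, reg R P (∑ i, c i ⊗ₜ z i) = ∑ i, c i • clh R P (z i) := by
      intro c
      rw [map_sum]
      rfl
    constructor
    · rw [injective_iff_map_eq_zero]
      intro t ht
      obtain ⟨c, rfl⟩ := hall t
      rw [hreg] at ht
      have h1 := Fintype.linearIndependent_iff.1 hli c ht
      refine Finset.sum_eq_zero fun i _ => ?_
      rw [h1, TensorProduct.zero_tmul]
    · intro v hv
      obtain ⟨c, hc⟩ := (Submodule.mem_span_range_iff_exists_fun E).1 (hspan v hv)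
      exact ⟨_, (hreg c).trans hc⟩
  · have hsub : Subsingleton (𝟙_ C ⟶ P⟦n⟧) := by
      constructor
      have h1 : ∀ x : 𝟙_ C ⟶ P⟦n⟧, x = 0 := by
        intro x
        rw [hn n x]
        refine Finset.sum_eq_zero fun i _ => ?_
        have h2 : x ≫ (r i)⟦n⟧' = 0 := by
          rcases lt_or_gt_of_ne hn0 with h3 | h3
          · exact hC.unit_negative n h3 _
          · exact hC.negative _ _ hC.unit hC.unit n h3 _
        rw [h2, zero_comp]
      intro x y
      rw [h1 x, h1 y]
    have hsub' : Subsingleton (E ⊗[ℚ] (𝟙_ C ⟶ P⟦n⟧)) := by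
      constructor
      have h1 : ∀ t : E ⊗[ℚ] (𝟙_ C ⟶ P⟦n⟧), t = 0 := by
        intro t
        induction t using TensorProduct.induction_on with
        | zero => rfl
        | add s t hs ht => rw [hs, ht, add_zero]
        | tmul c x => rw [Subsingleton.elim x 0, TensorProduct.tmul_zero]
      intro x y
      rw [h1 x, h1 y]
    obtain ⟨p, -, hp1, hp⟩ := hC.weil P hP
    refine ⟨Function.injective_of_subsingleton _, fun v hv => ⟨0, ?_⟩⟩
    rw [map_zero]
    symm
    refine gen_zero _ (fun v hv => ?_) hv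
    refine fix_zero (hp1 n hn0) ?_ v hv
    rw [pol_shift φ _ n (hC.frobenius_shift P n), hp]

include hQ in
/-- The first main implication. -/
theorem tb_of_strong (hC : FiniteField Chow φ R) (hc : ConservativeOn R Chow)
    (hs : StrongTate φ R Chow) (K : C) : TateBeilinson φ R K :=
  Iso1.tb hC.frobenius_unit ((iso1_all hC (fun _ hP n => iso1_chow hQ hC hc hs hP n) K 0).iso
    ((shiftFunctorZero C ℤ).app K))

variable [MonoidalPreadditive C]

/-- The realisation is faithful. -/
lemma faithful_of_tb (h : ∀ K : C, TateBeilinson φ R K) {K L : C} (f : K ⟶ L)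
    (hf : ∀ i : ℤ, R.H.map (f⟦i⟧') = 0) : f = 0 := by
  apply eq_zero_of_nm
  apply one_tmul (E := E)
  apply (h _).reg_injective
  rw [map_zero, reg_tmul, one_smul]
  change (Functor.LaxMonoidal.ε R.H ≫ R.H.map (nm f)).hom (1 : E) = 0
  rw [nm, Functor.map_comp, map_whisker_zero' R f hf, comp_zero, comp_zero]
  rfl

lemma conservative_of_tb (h : ∀ K : C, TateBeilinson φ R K) : Conservative R := by
  intro K hK
  rw [IsZero.iff_id_eq_zero]
  exact faithful_of_tb h _ fun i => (hK i).eq_of_src _ _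

lemma conservativeOn_of_tb (h : ∀ K : C, TateBeilinson φ R K) : ConservativeOn R Chow := by
  intro P Q _ _ f hf
  exact isIso_of_all (conservative_of_tb h) hf

/-- Non zero morphisms from the unit split. -/
lemma split_of_tb (h : ∀ K : C, TateBeilinson φ R K) {P : C} (x : 𝟙_ C ⟶ P) (hx : x ≠ 0) :
    ∃ r : P ⟶ 𝟙_ C, x ≫ r = 𝟙 _ := by
  have hcl : clh R P x ≠ 0 := by
    intro h1
    apply hx
    apply one_tmul (E := E)
    apply (h _).reg_injective
    rw [map_zero, reg_tmul, h1, smul_zero]
  have hinj : Mono (R.H.map x) := by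
    rw [ModuleCat.mono_iff_injective]
    rw [injective_iff_map_eq_zero]
    intro v hv
    obtain ⟨c, rfl⟩ := ((ModuleCat.epi_iff_surjective (Functor.LaxMonoidal.ε R.H)).1
      inferInstance) v
    have h1 : (Functor.LaxMonoidal.ε R.H ≫ R.H.map x).hom ((c : E) • (1 : E)) = (c : E) • clh R P x :=
      LinearMap.map_smul _ _ _
    rw [smul_eq_mul, mul_one] at h1
    have h2 : (c : E) • clh R P x = 0 := h1.symm.trans hv
    have h3 : (c : E) = 0 := (smul_eq_zero_iff_left hcl).1 h2
    rw [h3]
    exact map_zero _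
  obtain ⟨Z, q, δ, hT⟩ := distinguished_cocone_triangle x
  have hδ : δ = 0 := by
    apply faithful_of_tb h
    intro i
    by_cases hi : i = -1
    · subst hi
      have hT' := inv_rot_of_distTriang _ hT
      have h1 : R.H.map (Triangle.mk x q δ).invRotate.mor₁ = 0 := by
        rw [← cancel_mono (R.H.map x), ← Functor.map_comp]
        have h2 : (Triangle.mk x q δ).invRotate.mor₁ ≫ x = 0 := comp12 hT'
        rw [h2, Functor.map_zero, zero_comp]
      obtain ⟨u, hu, h2⟩ : ∃ u : ((𝟙_ C)⟦(1 : ℤ)⟧)⟦(-1 : ℤ)⟧ ⟶ 𝟙_ C, IsIso u ∧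
          (Triangle.mk x q δ).invRotate.mor₁ = -(δ⟦(-1 : ℤ)⟧' ≫ u) :=
        ⟨(shiftEquiv C (1 : ℤ)).unitIso.inv.app _, inferInstance, rfl⟩
      rw [h2, Functor.map_neg, Functor.map_comp, neg_eq_zero] at h1
      rw [← cancel_mono (R.H.map u), zero_comp, h1]
    · have h1 : IsZero (R.H.obj (((𝟙_ C)⟦(1 : ℤ)⟧)⟦i⟧)) :=
        (deg_unit (1 + i) (by omega)).of_iso (R.H.mapIso ((shiftFunctorAdd C 1 i).app _).symm)
      exact h1.eq_of_tgt _ _
  obtain ⟨r, hr⟩ := split3 hT hδ
  exact ⟨r, hr⟩

include hQ in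
/-- The strong form of Tate's conjecture. -/
lemma strong_of_tb (h0 : φ.app (𝟙_ C) = 𝟙 _) (h : ∀ K : C, TateBeilinson φ R K) :
    StrongTate φ R Chow := by
  classical
  intro P _
  obtain ⟨b, hb1, hb2, hb3⟩ := exists_linearIndependent E (Set.range (clh R P))
  have hspan : Submodule.span E (Set.range (clh R P)) = (frob φ R P).maxGenEigenspace 1 := by
    apply le_antisymm
    · rw [Submodule.span_le]
      rintro _ ⟨x, rfl⟩
      exact eigen_of_fix (frob_cl h0 x)
    · rw [(h P).semisimple]
      intro v hv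
      have h1 : v ∈ Set.range (reg R P) := by
        rw [(h P).reg_range]
        exact hv
      obtain ⟨t, rfl⟩ := h1
      induction t using TensorProduct.induction_on with
      | zero => rw [map_zero]; exact Submodule.zero_mem _
      | add s t hs ht =>
        rw [map_add]
        refine Submodule.add_mem _ (hs ?_) (ht ?_)
        · exact Module.End.mem_eigenspace_iff.2 (by rw [frob_reg h0, one_smul])
        · exact Module.End.mem_eigenspace_iff.2 (by rw [frob_reg h0, one_smul])
      | tmul c x => exact Submodule.smul_mem _ _ (Submodule.subset_span ⟨x, rfl⟩)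
  have hfin : Finite b := hb3.finite
  have := Fintype.ofFinite b
  obtain ⟨a, ha⟩ : ∃ a, a = Fintype.card b := ⟨_, rfl⟩
  have e : Fin a ≃ b := (Fintype.equivFinOfCardEq ha.symm).symm
  choose z hz using fun i : Fin a => hb1 (e i).2
  have hli : LinearIndependent E (fun i => clh R P (z i)) := by
    have h1 : (fun i => clh R P (z i)) = (Subtype.val : b → R.H.obj P) ∘ e := funext hz
    rw [h1]
    exact hb3.comp _ e.injective
  have hne : 𝟙 (𝟙_ C) ≠ 0 := fun h1 => not_isZero_unit R ((IsZero.iff_id_eq_zero _).2 h1)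
  have hinj : Function.Injective (fun q : ℚ => q • 𝟙 (𝟙_ C)) := by
    intro p q hpq
    have h1 : (p - q) • 𝟙 (𝟙_ C) = 0 := by
      rw [sub_smul, sub_eq_zero]
      exact hpq
    by_contra hne'
    exact hne ((smul_eq_zero_iff_right (sub_ne_zero.2 hne')).1 h1)
  have hadd : ∀ e f : 𝟙_ C ⟶ 𝟙_ C, num hQ (e + f) = num hQ e + num hQ f := by
    intro e f
    apply hinj
    change num hQ (e + f) • 𝟙 (𝟙_ C) = (num hQ e + num hQ f) • 𝟙 (𝟙_ C)
    rw [add_smul, ← num_spec, ← num_spec, ← num_spec]
  let β : (P ⟶ 𝟙_ C) →ₗ[ℚ] (𝟙_ C ⟶ P) →ₗ[ℚ] ℚ :=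
    AddMonoidHom.toRatLinearMap
      { toFun := fun r => AddMonoidHom.toRatLinearMap
          { toFun := fun x => num hQ (x ≫ r)
            map_zero' := by
              apply hinj
              change num hQ (0 ≫ r) • 𝟙 (𝟙_ C) = (0 : ℚ) • 𝟙 (𝟙_ C)
              rw [← num_spec, zero_smul, zero_comp]
            map_add' := fun x y => by rw [Preadditive.add_comp, hadd] }
        map_zero' := by
          ext x
          apply hinj
          change num hQ (x ≫ 0) • 𝟙 (𝟙_ C) = (0 : ℚ) • 𝟙 (𝟙_ C)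
          rw [← num_spec, zero_smul, comp_zero]
        map_add' := fun r s => by
          ext x
          change num hQ (x ≫ (r + s)) = num hQ (x ≫ r) + num hQ (x ≫ s)
          rw [Preadditive.comp_add, hadd] }
  have hβ : ∀ r x, β r x = num hQ (x ≫ r) := fun _ _ => rfl
  obtain ⟨r, hr⟩ := exists_dual β z (fun c hc => by
    obtain ⟨x, hx⟩ : ∃ x, x = ∑ i, c i • z i := ⟨_, rfl⟩
    have h1 : x = 0 := by
      by_contra hne'
      obtain ⟨r, hr⟩ := split_of_tb h x hne'
      have h2 := hc r
      have h3 : β r x = 0 := by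
        rw [hx, map_sum, ← h2]
        exact Finset.sum_congr rfl fun i _ => by rw [map_smul, smul_eq_mul]
      rw [hβ, hr] at h3
      apply hne
      rw [num_spec hQ (𝟙 (𝟙_ C)), h3, zero_smul]
    have h2 : ∑ i, (c i : E) • clh R P (z i) = 0 := by
      have h3 : clh R P x = ∑ i, (c i : E) • clh R P (z i) := by
        rw [hx, map_sum]
        refine Finset.sum_congr rfl fun i _ => ?_
        have h4 := map_ratCast_smul (clh R P) ℚ E (c i) (z i)
        rwa [Rat.cast_id] at h4
      rw [← h3, h1, map_zero]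
    have h3 := Fintype.linearIndependent_iff.1 hli _ h2
    funext i
    exact_mod_cast h3 i)
  refine ⟨a, z, r, fun i j => ?_, ?_⟩
  · have h1 := hr i j
    rw [hβ] at h1
    rw [num_spec hQ (z i ≫ r j), h1]
    split_ifs <;> simp
  · rw [← hspan, ← hb2]
    have h1 : b = Set.range (Subtype.val : b → R.H.obj P) := by simp
    rw [h1, finrank_span_eq_card hb3, ← ha]

include hQ in
/-- The first form of the theorem. -/
theorem main_strong (hC : FiniteField Chow φ R) :
    (∀ K : C, TateBeilinson φ R K) ↔ StrongTate φ R Chow ∧ ConservativeOn R Chow :=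
  ⟨fun h => ⟨strong_of_tb hQ hC.frobenius_unit h, conservativeOn_of_tb h⟩,
    fun h K => tb_of_strong hQ hC h.2 h.1 K⟩

end

end Pool.Agent.U735.TB
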