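import Pool.Agent.U735.TB.Coh
import Pool.Agent.U735.TB.Main

/-!
# Homological and numerical equivalence from the conservativity
-/

set_option autoImplicit false
set_option linter.unusedSectionVars false
set_option linter.unusedSimpArgs false
set_option backward.isDefEq.respectTransparency false
set_option backward.defeqAttrib.useBackward true

open CategoryTheory Limits MonoidalCategory Pretriangulated Triangulated
open scoped Polynomial

namespace Pool.Agent.U735.TB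

open Pool.Agent.Y116.MT Pool.Agent.V1178.MT Pool.Agent.U735.IL Pool.Agent.U735.FF
  Pool.Agent.U735.TC Pool.Agent.U735.CV

universe v u w

open Functor.LaxMonoidal

section

variable {C : Type u} [Category.{v} C] [Preadditive C] [HasZeroObject C] [HasShift C ℤ]
  [∀ n : ℤ, (shiftFunctor C n).Additive] [Pretriangulated C] [MonoidalCategory C]
  [SymmetricCategory C] [TensorTriangulated C]

lemma rShift_natural_both {X X' Y Y' : C} (a : X ⟶ X') (b : Y ⟶ Y') (i : ℤ) :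
    (a ⊗ₘ b⟦i⟧') ≫ (rShift X' Y' i).hom = (rShift X Y i).hom ≫ (a ⊗ₘ b)⟦i⟧' := by
  rw [MonoidalCategory.tensorHom_def, MonoidalCategory.tensorHom_def, Category.assoc,
    rShift_natural_right, reassoc_of% rShift_natural_left, Functor.map_comp]

variable {E : Type w} [Field E] (R : Realisation C E)

/-- The morphism acts as zero on the cohomology outside degree zero. -/
def Zero0 {X Y : C} (ζ : X ⟶ Y) : Prop := ∀ i : ℤ, i ≠ 0 → R.H.map (ζ⟦i⟧') = 0

variable {R}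

lemma shift_shift_zero {X Y : C} {ζ : X ⟶ Y} {i j : ℤ} (h : R.H.map (ζ⟦i + j⟧') = 0) :
    R.H.map (ζ⟦i⟧'⟦j⟧') = 0 := by
  have h1 : ζ⟦i⟧'⟦j⟧' = (shiftFunctorAdd C i j).inv.app X ≫ ζ⟦i + j⟧' ≫
      (shiftFunctorAdd C i j).hom.app Y := by
    have h2 := (shiftFunctorAdd C i j).hom.naturality ζ
    rw [h2]
    simp
  rw [h1, Functor.map_comp, Functor.map_comp, h, zero_comp, comp_zero]

lemma map_shift_zero_iff {X Y : C} {f : X ⟶ Y} : R.H.map (f⟦(0 : ℤ)⟧') = 0 ↔ R.H.map f = 0 := by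
  have h8 : f⟦(0 : ℤ)⟧' = (shiftFunctorZero C ℤ).hom.app X ≫
      f ≫ (shiftFunctorZero C ℤ).inv.app Y := shiftZero' (A := ℤ) (f := _)
  rw [h8, Functor.map_comp, Functor.map_comp]
  constructor
  · intro h
    rw [← cancel_epi (R.H.map ((shiftFunctorZero C ℤ).hom.app X)),
      ← cancel_mono (R.H.map ((shiftFunctorZero C ℤ).inv.app Y)), Category.assoc, h]
    simp
  · intro h
    rw [h, zero_comp, comp_zero]

lemma Zero0.pm {Z : C} {ζ : Z ⟶ Z} (h : Zero0 R ζ) (n : ℕ) :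
    Zero0 R (CV.pm (𝟙 (𝟙_ C)) ζ n) := by
  induction n with
  | zero =>
    intro i hi
    exact (deg_unit i hi).eq_of_src _ _
  | succ n ih =>
    intro i hi
    rw [pm_succ]
    have h1 := congrArg R.H.map (rShift_natural_both (CV.pm (𝟙 (𝟙_ C)) ζ n) ζ i)
    rw [Functor.map_comp, Functor.map_comp, map_tensor_zero, zero_comp] at h1
    · rw [← cancel_epi (R.H.map (rShift _ _ i).hom), ← h1, comp_zero]
    · intro j
      by_cases hj : j = 0
      · subst hj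
        exact Or.inr (shift_shift_zero (h _ (by omega)))
      · exact Or.inl (ih j hj)

lemma Zero0.range {Z : C} {ζ : Z ⟶ Z} (h : Zero0 R ζ) (n : ℕ) :
    ∀ (y : R.H.obj (pw (𝟙_ C) Z n)),
    ∃ w, R.H.map (CV.pm (𝟙 (𝟙_ C)) ζ n) y = kap R.H (𝟙_ C) Z n w := by
  induction n with
  | zero => exact fun y => ⟨R.H.map (CV.pm (𝟙 (𝟙_ C)) ζ 0) y, rfl⟩
  | succ n ih =>
    intro y
    obtain ⟨w, hw⟩ := map_tensor_range R (CV.pm (𝟙 (𝟙_ C)) ζ n) ζ h y
    obtain ⟨w', hw'⟩ : ∃ w' : (pw (R.H.obj (𝟙_ C)) (R.H.obj Z) (n + 1) : ModuleCat.{w} E),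
        (R.H.map (CV.pm (𝟙 (𝟙_ C)) ζ n) ⊗ₘ R.H.map ζ) w = (kap R.H (𝟙_ C) Z n ▷ R.H.obj Z) w' := by
      clear hw
      change TensorProduct E (R.H.obj (pw (𝟙_ C) Z n)) (R.H.obj Z) at w
      induction w using TensorProduct.induction_on with
      | zero =>
        exact ⟨0, (LinearMap.map_zero (R.H.map (CV.pm (𝟙 (𝟙_ C)) ζ n) ⊗ₘ R.H.map ζ).hom).trans
          (LinearMap.map_zero (kap R.H (𝟙_ C) Z n ▷ R.H.obj Z).hom).symm⟩
      | add a b ha hb =>
        obtain ⟨a', ha⟩ := ha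
        obtain ⟨b', hb⟩ := hb
        exact ⟨a' + b',
          (LinearMap.map_add (R.H.map (CV.pm (𝟙 (𝟙_ C)) ζ n) ⊗ₘ R.H.map ζ).hom a b).trans
            ((congrArg₂ (· + ·) ha hb).trans
              (LinearMap.map_add (kap R.H (𝟙_ C) Z n ▷ R.H.obj Z).hom a' b').symm)⟩
      | tmul a b =>
        obtain ⟨a', ha⟩ := ih a
        refine ⟨TensorProduct.tmul E a' (R.H.map ζ b), ?_⟩
        change TensorProduct.tmul E (R.H.map (CV.pm (𝟙 (𝟙_ C)) ζ n) a) (R.H.map ζ b) =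
          TensorProduct.tmul E (kap R.H (𝟙_ C) Z n a') (R.H.map ζ b)
        rw [ha]
    refine ⟨w', ?_⟩
    rw [pm_succ, hw, hw']
    rfl

variable [MonoidalPreadditive C]

/-- The antisymmetrized power acts as zero. -/
lemma Zero0.alt {Z : C} {ζ : Z ⟶ Z} (h : Zero0 R ζ) {n : ℕ}
    (hn : Module.finrank E (R.H.obj Z) < n) (i : ℤ) :
    R.H.map ((alt (𝟙_ C) Z n ≫ CV.pm (𝟙 _) ζ n)⟦i⟧') = 0 := by
  rw [alt_pm]
  by_cases hi : i = 0
  · subst hi
    rw [map_shift_zero_iff]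
    apply ModuleCat.hom_ext
    apply LinearMap.ext
    intro y
    obtain ⟨w, hw⟩ := h.range n y
    have h1 := congrArg (fun f => f.hom w) (alt_lax R.H (𝟙_ C) Z n)
    have h2 : R.H.map (CV.pm (𝟙 (𝟙_ C)) ζ n ≫ Y116.MT.alt (𝟙_ C) Z n) y =
        R.H.map (Y116.MT.alt (𝟙_ C) Z n) (kap R.H (𝟙_ C) Z n w) := by
      rw [← hw, Functor.map_comp]
      rfl
    have h3 : R.H.map (Y116.MT.alt (𝟙_ C) Z n) (kap R.H (𝟙_ C) Z n w) =
        (Y116.MT.alt (R.H.obj (𝟙_ C)) (R.H.obj Z) n ≫ kap R.H (𝟙_ C) Z n) w := h1.symm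
    rw [alt_vec_zero _ _ n hn, zero_comp] at h3
    exact h2.trans h3
  · rw [Functor.map_comp, Functor.map_comp, h.pm n i hi, zero_comp]

lemma Zero0.kos [CharZero E] {Z : C} {ζ : Z ⟶ Z} (h : Zero0 R ζ) {n : ℕ}
    (hn : Module.finrank E (R.H.obj Z) < n) (i : ℤ) : IsIso (R.H.map ((CV.kos ζ n)⟦i⟧')) := by
  have h1 : R.H.map ((CV.kos ζ n)⟦i⟧') = (n.factorial : ℤ) • 𝟙 _ := by
    rw [CV.kos, Functor.map_sub, Functor.map_sub, h.alt hn, sub_zero, Functor.map_zsmul,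
      Functor.map_zsmul, CategoryTheory.Functor.map_id, CategoryTheory.Functor.map_id]
  rw [h1]
  have hn0 : (n.factorial : ℤ) ≠ 0 := by exact_mod_cast Nat.factorial_ne_zero n
  have h0 : ((n.factorial : ℤ) : E) ≠ 0 := by exact_mod_cast hn0
  refine ⟨((n.factorial : ℤ) : E)⁻¹ • 𝟙 _, ?_, ?_⟩
  · rw [← Int.cast_smul_eq_zsmul E, Linear.smul_comp, Linear.comp_smul, smul_smul,
      mul_inv_cancel₀ h0, one_smul, Category.comp_id]
  · rw [← Int.cast_smul_eq_zsmul E, Linear.smul_comp, Linear.comp_smul, smul_smul,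
      inv_mul_cancel₀ h0, one_smul, Category.comp_id]

/-- The connecting morphism acts as zero. -/
lemma conn_zero {P Z : C} {x : 𝟙_ C ⟶ P} {q : P ⟶ Z} {δ : Z ⟶ (𝟙_ C)⟦(1 : ℤ)⟧}
    (hT : Triangle.mk x q δ ∈ distTriang C) (hcl : clh R P x ≠ 0) (i : ℤ) :
    R.H.map (δ⟦i⟧') = 0 := by
  have hinj : Mono (R.H.map x) := by
    rw [ModuleCat.mono_iff_injective]
    rw [injective_iff_map_eq_zero]
    intro v hv
    obtain ⟨c, rfl⟩ := ((ModuleCat.epi_iff_surjective (Functor.LaxMonoidal.ε R.H)).1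
      inferInstance) v
    have h1 : (Functor.LaxMonoidal.ε R.H ≫ R.H.map x).hom ((c : E) • (1 : E)) = (c : E) • clh R P x :=
      LinearMap.map_smul _ _ _
    rw [smul_eq_mul, mul_one] at h1
    have h2 : (c : E) • clh R P x = 0 := h1.symm.trans hv
    have h3 : (c : E) = 0 := (smul_eq_zero_iff_left hcl).1 h2
    rw [h3]
    exact map_zero _
  by_cases hi : i = -1
  · subst hi
    have hT' := inv_rot_of_distTriang _ hT
    have h1 : R.H.map (Triangle.mk x q δ).invRotate.mor₁ = 0 := by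
      rw [← cancel_mono (R.H.map x), ← Functor.map_comp]
      have h2 : (Triangle.mk x q δ).invRotate.mor₁ ≫ x = 0 := comp12 hT'
      rw [h2, Functor.map_zero, zero_comp]
    obtain ⟨u, hu, h2⟩ : ∃ u : ((𝟙_ C)⟦(1 : ℤ)⟧)⟦(-1 : ℤ)⟧ ⟶ 𝟙_ C, IsIso u ∧
        (Triangle.mk x q δ).invRotate.mor₁ = -(δ⟦(-1 : ℤ)⟧' ≫ u) :=
      ⟨(shiftEquiv C (1 : ℤ)).unitIso.inv.app _, inferInstance, rfl⟩
    rw [h2, Functor.map_neg, Functor.map_comp, neg_eq_zero] at h1
    rw [← cancel_mono (R.H.map u), zero_comp, h1]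
  · have h1 : IsZero (R.H.obj (((𝟙_ C)⟦(1 : ℤ)⟧)⟦i⟧)) :=
      (deg_unit (1 + i) (by omega)).of_iso (R.H.mapIso ((shiftFunctorAdd C 1 i).app _).symm)
    exact h1.eq_of_tgt _ _

lemma epi_of_conn {P Z W : C} {x : W ⟶ P} {q : P ⟶ Z} {δ : Z ⟶ W⟦(1 : ℤ)⟧}
    (hT : Triangle.mk x q δ ∈ distTriang C) (h : ∀ i : ℤ, R.H.map (δ⟦i⟧') = 0) (i : ℤ) :
    Epi (R.H.map (q⟦i⟧')) := by
  rw [ModuleCat.epi_iff_surjective]
  intro v
  have hT' := rot_of_distTriang _ (Triangle.shift_distinguished _ hT i)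
  have h1 := Triangle.shift_distinguished _ hT i
  obtain ⟨g, hg⟩ : ∃ g : Z⟦i⟧ ⟶ (W⟦i⟧)⟦(1 : ℤ)⟧, Triangle.mk (i.negOnePow • x⟦i⟧')
      (i.negOnePow • q⟦i⟧') g ∈ distTriang C ∧ R.H.map g = 0 := by
    refine ⟨_, h1, ?_⟩
    change R.H.map (i.negOnePow • δ⟦i⟧' ≫ (shiftFunctorComm C 1 i).hom.app W) = 0
    rcases Int.even_or_odd i with h2 | h2
    · rw [Int.negOnePow_even i h2, one_smul, Functor.map_comp, h, zero_comp]
    · rw [Int.negOnePow_odd i h2, Units.neg_smul, one_smul, Functor.map_neg, Functor.map_comp, h,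
        zero_comp, neg_zero]
  have h2 := (ShortComplex.moduleCat_exact_iff _).1
    (R.H.map_distinguished_exact _ (rot_of_distTriang _ hg.1)) v
    (by
      have h3 := congrArg (fun f => f.hom v) hg.2
      exact h3)
  obtain ⟨u, hu⟩ := h2
  have hu' : R.H.map (i.negOnePow • q⟦i⟧') u = v := hu
  rcases Int.even_or_odd i with h3 | h3
  · rw [Int.negOnePow_even i h3, one_smul] at hu'
    exact ⟨u, hu'⟩
  · rw [Int.negOnePow_odd i h3, Units.neg_smul, one_smul, Functor.map_neg] at hu'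
    refine ⟨-u, ?_⟩
    have h4 : R.H.map (q⟦i⟧') (-u) = -(R.H.map (q⟦i⟧') u) := map_neg _ _
    exact h4.trans hu'

variable [RightRigidCategory C] [Linear ℚ C] [CharZero E] {φ : 𝟭 C ⟶ 𝟭 C} {Chow : ObjectProperty C}

/-- A conservative realisation detects the classes which are numerically trivial. -/
theorem hom_num (hC : FiniteField Chow φ R) (hc : Conservative R) {P : C} (hP : Chow P)
    (z : 𝟙_ C ⟶ P) (hz : clh R P z ≠ 0) : ∃ r : P ⟶ 𝟙_ C, z ≫ r ≠ 0 := by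
  classical
  obtain ⟨Z, q, δ, hT⟩ := distinguished_cocone_triangle z
  obtain ⟨p, -, hp1, hp⟩ := hC.weil P hP
  obtain ⟨N, hN⟩ := R.bounded P
  obtain ⟨g, hg⟩ : ∃ g, g = ∏ i ∈ (Finset.Icc (-N : ℤ) N).erase 0, p i := ⟨_, rfl⟩
  have hg1 : g.eval 1 ≠ 0 := by
    rw [hg, Polynomial.eval_prod, Finset.prod_ne_zero_iff]
    intro i hi
    exact hp1 i (Finset.ne_of_mem_erase hi)
  obtain ⟨s, hs⟩ : ∃ s, s = Polynomial.C (g.eval 1)⁻¹ * g := ⟨_, rfl⟩
  have hs1 : s.eval 1 = 1 := by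
    rw [hs, Polynomial.eval_mul, Polynomial.eval_C, inv_mul_cancel₀ hg1]
  have hs0 : ∀ i : ℤ, i ≠ 0 → R.H.map ((pol φ s P)⟦i⟧') = 0 := by
    intro i hi
    by_cases hi' : N < i.natAbs
    · exact (hN i hi').eq_of_src _ _
    · have h1 : i ∈ (Finset.Icc (-N : ℤ) N).erase 0 := by
        rw [Finset.mem_erase, Finset.mem_Icc]
        omega
      obtain ⟨g', hg'⟩ : ∃ g', g = p i * g' := by
        rw [hg]
        exact Finset.dvd_prod_of_mem p h1
      have h2 : pol φ s P = pol φ (p i) P ≫ pol φ (Polynomial.C (g.eval 1)⁻¹ * g') P := by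
        rw [← pol_mul, hs, hg', mul_left_comm]
      rw [h2, Functor.map_comp, Functor.map_comp, hp, zero_comp]
  have hζ' : pol φ s Z ≫ δ = δ := by
    rw [pol_nat, pol_shift φ s 1 (hC.frobenius_shift _ 1), pol_of_id φ s hC.frobenius_unit, hs1,
      one_smul, CategoryTheory.Functor.map_id]
    exact Category.comp_id _
  have hδ := conn_zero hT hz
  have hZ0 : Zero0 R (pol φ s Z) := by
    intro i hi
    have h1 := epi_of_conn hT hδ i
    have h2 : q ≫ pol φ s Z = pol φ s P ≫ q := (pol_nat φ s q).symm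
    rw [← cancel_epi (R.H.map (q⟦i⟧')), comp_zero, ← Functor.map_comp, ← Functor.map_comp, h2,
      Functor.map_comp, Functor.map_comp, hs0 i hi, zero_comp]
  have hv : IsIso (CV.kos (pol φ s Z) (Module.finrank E (R.H.obj Z) + 1)) :=
    isIso_of_all hc fun i => hZ0.kos (Nat.lt_succ_self _) i
  have hne : 𝟙 (𝟙_ C) ≠ 0 := fun h1 => not_isZero_unit R ((IsZero.iff_id_eq_zero _).2 h1)
  exact CV.not_numTrivial_of_isIso hT (pol φ s Z) hζ' _ hne Chow hC.unit
    (fun X hX => hC.tensor X P hX hP) (fun X hX m hm f => hC.negative X _ hX hC.unit m hm f) hv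

end

end Pool.Agent.U735.TB
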